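import Pool.Agent.Q85.CC.Defs

/-!
Project CC, part (C): the double cone condition (all the nonzero vorticities of a ball make an angle
less than a fixed angle below 90 degrees with an unoriented axis).
-/

set_option autoImplicit false

open MeasureTheory Set Metric
open scoped ContDiff
open H459R3.NS Pool.Agent.W268.NS Pool.Agent.Q67.VD

namespace Pool.Agent.Q85.CC

/-- On the cube with centre `x` and side `2 R` the vorticity lies in a double cone with axis `e`. -/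
def DCone (κ R : ℝ) (e x : V) (v : V → V) : Prop :=
  e ⬝ᵥ e = 1 ∧ ∀ y, ‖y - x‖ ≤ R → κ * om v y ≤ |e ⬝ᵥ vort v y|

/-- `StmPinch` for the double cone (without the remainder `M`). -/
def StmPinchD : Prop := ∀ κ : ℝ, 0 < κ → κ ≤ 1 → ∃ σ lam c : ℝ, 0 < σ ∧ σ ≤ 1 / 8 ∧ 0 < lam ∧
  lam ≤ 1 / 2 ∧ 0 < c ∧ c ≤ 1 ∧ ∀ K η τ : ℝ, 0 ≤ K → 0 < η → η ≤ 1 → 0 < τ → τ ≤ 1 → ∃ N : ℕ,
    ∀ (v : V → V) (x e : V) (R ρ : ℝ), SDF v → 0 < R → R ≤ 1 → DCone κ R e x v →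
      (∀ s, 0 < s → s ≤ R → ∫ y in closedBall x s, om v y ≤ K * s) →
      0 < ρ → ρ ≤ lam ^ N * R → η * ρ ≤ ∫ y in closedBall x ρ, om v y →
        ∃ k < N, ∀ s w : ℝ, σ * (lam ^ k * (R / 4)) ≤ s → s ≤ 2 * σ * (lam ^ k * (R / 4)) →
          0 < w → w ≤ σ * (lam ^ k * (R / 4)) / 4 →
            (∫ y in Disc e x s w (lam ^ k * (R / 4) / 2) \ Disc e x s w (lam ^ k * (R / 4) / 4),
              om v y ≤ τ * w) ∧
            c * η * w ≤ ∫ y in Disc e x s w (lam ^ k * (R / 4) / 4), om v y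

/-- The bound of the integral of the vorticity (Constantin). -/
def StmL1 : Prop := ∀ (T : ℝ) (u : ℝ → V → V) (p : ℝ → V → ℝ), IsSol 1 T u p →
  ∃ L : ℝ, 0 ≤ L ∧ ∀ t ∈ Ico 0 T, ∫ y in cube, om (u t) y ≤ L

/-- The Morrey bound for the vorticity from the double cone condition. -/
def StmMorD : Prop := ∀ κ : ℝ, 0 < κ → κ ≤ 1 → ∃ C c : ℝ, 0 < C ∧ 0 < c ∧ c ≤ 1 ∧
  ∀ (v : V → V) (x e : V) (R : ℝ), SDF v → 0 < R → R ≤ 1 → DCone κ R e x v →
    ∀ r, 0 < r → r ≤ c * R →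
      ∫ y in closedBall x r, om v y ≤ C * (r / R) * ∫ y in closedBall x R, om v y

end Pool.Agent.Q85.CC
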