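import Pool.Agent.Q67.VD.Defs2
import Pool.Agent.W221.NS.Stm

/-!
Project CC (helper85 with helper67): the cone condition for the vorticity excludes blow-up.
Definitions and statements of the parts. `V = Fin 3 → ℝ` has the maximum norm; `om v` is the
Euclidean length of the vorticity `vort v`.
-/

set_option autoImplicit false

open MeasureTheory Set Metric
open scoped ContDiff
open H459R3.NS Pool.Agent.W268.NS Pool.Agent.Q67.VD

namespace Pool.Agent.Q85.CC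

/-! ### Geometry -/

/-- The coordinate of `y` along the axis through `x` with direction `e`. -/
noncomputable def hgt (e x y : V) : ℝ := e ⬝ᵥ (y - x)

/-- The square of the distance of `y` from the axis. -/
noncomputable def pr2 (e x y : V) : ℝ := (y - x) ⬝ᵥ (y - x) - hgt e x y ^ 2

/-- The cylinder around the axis with radius `ρ`, between the heights `s - w` and `s + w`. -/
def Disc (e x : V) (s w ρ : ℝ) : Set V := {y | |hgt e x y - s| ≤ w ∧ pr2 e x y ≤ ρ ^ 2}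

/-- On the cube with centre `x` and side `2 R` the vorticity lies in a cone with axis `e`, up to
`M`. -/
def Cone (κ M R : ℝ) (e x : V) (v : V → V) : Prop :=
  e ⬝ᵥ e = 1 ∧ ∀ y, ‖y - x‖ ≤ R → κ * om v y ≤ e ⬝ᵥ vort v y + M

/-- Smooth periodic and free of divergence. -/
def SDF (v : V → V) : Prop :=
  (∀ i, SP (fun y => v y i)) ∧ ∀ x, ∑ i, pd i (fun y => v y i) x = 0

/-- The sum of the squares of all partial derivatives of order `n` (this is `SS` of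
`Pool.Agent.TH305.DR.Basic`). -/
noncomputable def SQ : ℕ → (V → ℝ) → V → ℝ
  | 0, f, x => f x ^ 2
  | n + 1, f, x => ∑ i, SQ n (pd i f) x

/-- The entries `∂ᵢ vⱼ - ∂ⱼ vᵢ` of the vorticity matrix (`Om` of `Pool.Agent.TH305.DR.Dat`). -/
noncomputable def cur (i j : Fin 3) (v : V → V) (x : V) : ℝ :=
  pd i (fun y => v y j) x - pd j (fun y => v y i) x

/-- `y` is a good point with scale `h`: analytic bounds for the vorticity on the ball of radius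
`h`. -/
def Gd (c h : ℝ) (v : V → V) (y : V) : Prop := ∀ z ∈ ball y h, ∀ (n : ℕ) (i j : Fin 3),
  SQ n (cur i j v) z ≤ (c ^ (n + 1) * n.factorial / h ^ (n + 2)) ^ 2

/-! ### Part A: concentration of the flux (one time, no equation) -/

/-- If the vorticity is concentrated near `x` at a tiny scale `ρ` then there is a scale `r` between
`ρ` and `R` with almost no vorticity in the region `r / 4 ≤ |y_perp| ≤ r / 2` at all the heights
between `σ r` and `2 σ r`, but with the flux `c η` through `|y_perp| ≤ r / 4`. -/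
def StmPinch : Prop := ∀ κ : ℝ, 0 < κ → κ ≤ 1 → ∃ σ lam c : ℝ, 0 < σ ∧ σ ≤ 1 / 8 ∧ 0 < lam ∧
  lam ≤ 1 / 2 ∧ 0 < c ∧ c ≤ 1 ∧ ∀ K η τ : ℝ, 0 ≤ K → 0 < η → η ≤ 1 → 0 < τ → τ ≤ 1 → ∃ N : ℕ,
    ∀ (v : V → V) (x e : V) (M R ρ : ℝ), SDF v → 0 ≤ M → 0 < R → R ≤ 1 → Cone κ M R e x v →
      (∀ s, 0 < s → s ≤ R → ∫ y in closedBall x s, om v y ≤ K * s) → M * R ^ 2 ≤ c * η * τ →
      0 < ρ → ρ ≤ lam ^ N * R → η * ρ ≤ ∫ y in closedBall x ρ, om v y →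
        ∃ k < N, ∀ s w : ℝ, σ * (lam ^ k * (R / 4)) ≤ s → s ≤ 2 * σ * (lam ^ k * (R / 4)) →
          0 < w → w ≤ σ * (lam ^ k * (R / 4)) / 4 →
            (∫ y in Disc e x s w (lam ^ k * (R / 4) / 2) \ Disc e x s w (lam ^ k * (R / 4) / 4),
              om v y ≤ τ * w) ∧
            c * η * w ≤ ∫ y in Disc e x s w (lam ^ k * (R / 4) / 4), om v y

/-! ### Part B: quantitative analytic continuation in a disc -/

/-- Analytic bounds at scale `h r` at all the points of the disc of radius `r / 2` at height `s`;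
the vorticity is tiny (in `L¹`) in the annulus of a thin slab: then it is small in the disc of
radius `r / 4` of the slab. -/
def StmAna : Prop := ∀ c h ε : ℝ, 1 ≤ c → 0 < h → h ≤ 1 → 0 < ε → ∃ τ w₀ : ℝ, 0 < τ ∧ 0 < w₀ ∧
  w₀ ≤ h ∧ ∀ (v : V → V) (x e : V) (r s : ℝ), (∀ i, ContDiff ℝ ∞ (fun y => v y i)) →
    e ⬝ᵥ e = 1 → 0 < r → (∀ y, hgt e x y = s → pr2 e x y ≤ (r / 2) ^ 2 → Gd c (h * r) v y) →
    ∀ w : ℝ, 0 < w → w ≤ w₀ * r →
    ∫ y in Disc e x s w (r / 2) \ Disc e x s w (r / 4), om v y ≤ τ * w →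
      ∀ y ∈ Disc e x s w (r / 4), om v y ≤ ε / r ^ 2

/-! ### Part C: a disc of good points (Navier-Stokes, late window lemma) -/

/-- Uniform bounds of the dissipation in parabolic cylinders of all small sizes and of the mollified
velocity imply: at some height between `σ r` and `2 σ r` all points of the disc with radius `r` are
good, with scale `h r`; `h` depends only on the bounds. -/
def StmGood : Prop := ∃ c : ℝ, 1 ≤ c ∧ ∀ K C₁ σ : ℝ, 0 ≤ K → 0 ≤ C₁ → 0 < σ → σ ≤ 1 →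
  ∃ h L : ℝ, 0 < h ∧ h ≤ 1 ∧ 1 ≤ L ∧ ∀ (T : ℝ) (u : ℝ → V → V) (p : ℝ → V → ℝ), 0 < T →
    IsSol 1 T u p → ∃ r₀ : ℝ, 0 < r₀ ∧ ∀ (t r : ℝ) (x e : V), 0 < r → r ≤ r₀ → T / 2 ≤ t → t < T →
      x ∈ cube → e ⬝ᵥ e = 1 →
      (∀ τ ∈ Ioo (t - L * r ^ 2) t, ∀ y, ∀ ρ ∈ Ioc 0 r, ‖W221.NS.mol ρ u τ y‖ ≤ K / ρ) →
      (∀ y, ∀ ρ ∈ Ioc 0 (L * r), ∫ τ in Ioo (t - ρ ^ 2) t, W221.NS.B2 y ρ (u τ) ≤ C₁ * ρ) →
        ∃ s ∈ Icc (σ * r) (2 * σ * r), ∀ y, hgt e x y = s → pr2 e x y ≤ r ^ 2 →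
          Gd c (h * r) (u t) y

/-! ### Part D: the scaled dissipation is bounded (Type I energy bound) -/

/-- Pointwise bound of the velocity under the Morrey bound. -/
def StmVel : Prop := ∃ C : ℝ, 0 < C ∧ ∀ (v : V → V) (K ρ r : ℝ), SDF v → 0 ≤ K → 0 < r → r ≤ ρ →
  ρ ≤ 1 → Mor K ρ (om v) → ∀ y i, |v y i| ≤ C * (pot r (om v) y + K / r + √(energy v / ρ ^ 3)) ∧
    |∫ z, W221.NS.th z * v (y + r • z) i| ≤ C * (K / r + √(energy v / ρ ^ 3))

/-- Estimate at one scale and one time, with the majorant `w = pot r f + A / r` of the velocity. -/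
def StmNear : Prop := ∀ K A δ : ℝ, 0 ≤ K → 0 ≤ A → 0 < δ → ∃ C : ℝ, 0 ≤ C ∧
  ∀ (r : ℝ) (f : V → ℝ), 0 < r → Continuous f → (∀ y, 0 ≤ f y) → Mor K (8 * r) f → ∀ x,
    (∫ y in closedBall x (4 * r), (pot r f y + A / r) ^ 2) / r ^ 2
      + (∫ y in closedBall x (4 * r), (pot r f y + A / r) *
          pot r (fun z => f z * (pot r f z + A / r)) y) / r
      + (∫ y in closedBall x (4 * r), f y * (pot r f y + A / r)) / r
      ≤ δ * (∫ y in closedBall x (8 * r), f y ^ 2) + C / r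

/-- The local energy identity; `p + |u|² / 2` is the Bernoulli pressure. -/
def StmLE : Prop := ∀ (T : ℝ) (u : ℝ → V → V) (p : ℝ → V → ℝ), IsSol 1 T u p → ∀ φ : V → ℝ,
  ContDiff ℝ ∞ φ → HasCompactSupport φ → ∀ t ∈ Ioo 0 T,
    HasDerivAt (fun s => ∫ y, W221.NS.nsq (u s) y * φ y)
      (-2 * (∫ y, W221.NS.gsq (u t) y * φ y) + (∫ y, W221.NS.nsq (u t) y * lap φ y)
        + 2 * ∫ y, (p t y + W221.NS.nsq (u t) y / 2) * W221.NS.adv (u t) φ y) t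

/-- The equation of the Bernoulli pressure and its size. -/
def StmBern : Prop := ∃ C : ℝ, 0 < C ∧ ∀ (T : ℝ) (u : ℝ → V → V) (p : ℝ → V → ℝ), IsSol 1 T u p →
  ∀ t ∈ Ioo 0 T, SP (fun y => p t y + W221.NS.nsq (u t) y / 2) ∧
    (∀ i, SP (fun y => crossProduct (u t y) (vort (u t) y) i)) ∧
    (∀ x, lap (fun y => p t y + W221.NS.nsq (u t) y / 2) x
      = ∑ i, pd i (fun y => crossProduct (u t y) (vort (u t) y) i) x) ∧
    ∃ m : ℝ, ∫ y in cube, |p t y + W221.NS.nsq (u t) y / 2 - m| ≤ C * (energy (u t) + enstrophy (u t))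

/-- The bound of the scaled dissipation. -/
def StmEn : Prop := ∀ (T : ℝ) (u : ℝ → V → V) (p : ℝ → V → ℝ), 0 < T → IsSol 1 T u p →
  ∀ T₀ K ρ : ℝ, 0 ≤ T₀ → T₀ < T → 0 ≤ K → 0 < ρ → (∀ t ∈ Ioo T₀ T, Mor K ρ (om (u t))) →
    ∃ C₁ r₁ : ℝ, 0 ≤ C₁ ∧ 0 < r₁ ∧ ∀ t ∈ Ioo ((T₀ + T) / 2) T, ∀ x, ∀ r ∈ Ioc 0 r₁,
      ∫ τ in Ioo (t - r ^ 2) t, W221.NS.B2 x r (u τ) ≤ C₁ * r

/-! ### Part E: small Morrey norm -/

/-- A solution with a small Morrey norm of the vorticity stays bounded. -/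
def StmSmall : Prop := ∃ c : ℝ, 0 < c ∧ ∀ (T : ℝ) (u : ℝ → V → V) (p : ℝ → V → ℝ), 0 < T →
  IsSol 1 T u p → ∀ T₀ ρ : ℝ, 0 ≤ T₀ → T₀ < T → 0 < ρ → (∀ t ∈ Ioo T₀ T, Mor c ρ (om (u t))) →
    ∃ B : ℝ, ∀ t ∈ Ico 0 T, ∀ x, ‖u t x‖ ≤ B

/-! ### The theorem -/

/-- The cone condition excludes blow-up (viscosity one). -/
def StmCone : Prop := ∀ (T : ℝ) (u : ℝ → V → V) (p : ℝ → V → ℝ), 0 < T → IsSol 1 T u p →
  ∀ T₀ κ M R : ℝ, 0 ≤ T₀ → T₀ < T → 0 < κ → 0 ≤ M → 0 < R →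
    (∀ t ∈ Ioo T₀ T, ∀ x y, ‖x - y‖ ≤ R → M < om (u t) x → M < om (u t) y →
      κ * (om (u t) x * om (u t) y) ≤ vort (u t) x ⬝ᵥ vort (u t) y) →
    ∃ B : ℝ, ∀ t ∈ Ico 0 T, ∀ x, ‖u t x‖ ≤ B

end Pool.Agent.Q85.CC
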