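import Pool.Agent.H459R3.NS.Defs

/-!
Cut-off functions with bounds for the Laplacian.
-/

set_option autoImplicit false

open MeasureTheory Set Metric Filter Topology
open scoped ContDiff
open H459R3.NS

namespace Pool.Agent.Q85.CC

lemma pd_scale {g : V → ℝ} (hg : ContDiff ℝ ∞ g) (x : V) (r : ℝ) (i : Fin 3) (y : V) :
    pd i (fun y => g (r⁻¹ • (y - x))) y = r⁻¹ * pd i g (r⁻¹ • (y - x)) := by
  have h1 : HasFDerivAt (fun y : V => r⁻¹ • (y - x)) (r⁻¹ • ContinuousLinearMap.id ℝ V) y :=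
    ((hasFDerivAt_id y).sub_const x).const_smul r⁻¹
  have h2 := ((hg.differentiable (by norm_num) (r⁻¹ • (y - x))).hasFDerivAt).comp y h1
  have h3 : fderiv ℝ (fun y => g (r⁻¹ • (y - x))) y
      = (fderiv ℝ g (r⁻¹ • (y - x))).comp (r⁻¹ • ContinuousLinearMap.id ℝ V) := h2.fderiv
  unfold pd
  rw [h3, ContinuousLinearMap.comp_apply]
  have : (r⁻¹ • ContinuousLinearMap.id ℝ V) (Pi.single i 1) = r⁻¹ • (Pi.single i 1 : V) := rfl
  rw [this, map_smul, smul_eq_mul]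

lemma pd_cmul {g : V → ℝ} (hg : ContDiff ℝ ∞ g) (c : ℝ) (i : Fin 3) (y : V) :
    pd i (fun y => c * g y) y = c * pd i g y := by
  unfold pd
  rw [fderiv_const_mul (hg.differentiable (by norm_num) y)]
  rfl

lemma smooth_pd {g : V → ℝ} (hg : ContDiff ℝ ∞ g) (i : Fin 3) : ContDiff ℝ ∞ (pd i g) := by
  unfold pd
  exact (hg.fderiv_right (m := ∞) (by norm_cast)).clm_apply contDiff_const

lemma lap_scale {g : V → ℝ} (hg : ContDiff ℝ ∞ g) (x : V) (r : ℝ) (y : V) :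
    lap (fun y => g (r⁻¹ • (y - x))) y = r⁻¹ ^ 2 * lap g (r⁻¹ • (y - x)) := by
  unfold lap
  rw [Finset.mul_sum]
  refine Finset.sum_congr rfl fun j _ => ?_
  have h1 : pd j (fun y => g (r⁻¹ • (y - x))) = fun y => r⁻¹ * pd j g (r⁻¹ • (y - x)) :=
    funext fun y => pd_scale hg x r j y
  rw [h1]
  have h2 : ContDiff ℝ ∞ (fun y => pd j g (r⁻¹ • (y - x))) := by
    refine (smooth_pd hg j).comp ?_
    fun_prop
  rw [pd_cmul h2, pd_scale (smooth_pd hg j)]
  ring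

lemma pd_cs {g : V → ℝ} (hs : HasCompactSupport g) (i : Fin 3) : HasCompactSupport (pd i g) :=
  hs.fderiv_apply (𝕜 := ℝ) _

/-- Cut-off functions with bounds for the first derivatives and the Laplacian. -/
theorem cut2 : ∃ D : ℝ, 0 < D ∧ ∀ (x : V) (r : ℝ), 0 < r → ∃ χ : V → ℝ, ContDiff ℝ ∞ χ ∧
    HasCompactSupport χ ∧ (∀ y, 0 ≤ χ y) ∧ (∀ y, χ y ≤ 1) ∧ (∀ y ∈ closedBall x r, χ y = 1) ∧
    (∀ y, χ y ≠ 0 → ‖y - x‖ ≤ 2 * r) ∧ (∀ y i, |pd i χ y| ≤ D / r) ∧
    (∀ y, |lap χ y| ≤ D / r ^ 2) := by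
  let b : ContDiffBump (0 : V) := ⟨1, 2, one_pos, one_lt_two⟩
  have hb : ContDiff ℝ ∞ b := b.contDiff
  have hbs : HasCompactSupport b := b.hasCompactSupport
  have h1 : ∀ i, ∃ C, ∀ y, |pd i b y| ≤ C := fun i =>
    (pd_cs hbs i).exists_bound_of_continuous (smooth_pd hb i).continuous
  have h2 : ∀ i, ∃ C, ∀ y, |pd i (pd i b) y| ≤ C := fun i =>
    (pd_cs (pd_cs hbs i) i).exists_bound_of_continuous (smooth_pd (smooth_pd hb i) i).continuous
  choose C1 hC1 using h1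
  choose C2 hC2 using h2
  have p1 : ∀ i, 0 ≤ C1 i := fun i => (abs_nonneg _).trans (hC1 i 0)
  have p2 : ∀ i, 0 ≤ C2 i := fun i => (abs_nonneg _).trans (hC2 i 0)
  refine ⟨(∑ i, C1 i) + (∑ i, C2 i) + 1, ?_, fun x r hr => ?_⟩
  · have a1 := Finset.sum_nonneg fun i (_ : i ∈ Finset.univ) => p1 i
    have a2 := Finset.sum_nonneg fun i (_ : i ∈ Finset.univ) => p2 i
    linarith
  have s1 : 0 ≤ ∑ i, C1 i := Finset.sum_nonneg fun i _ => p1 i
  have s2 : 0 ≤ ∑ i, C2 i := Finset.sum_nonneg fun i _ => p2 i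
  have hout : ∀ y, y ∉ closedBall x (2 * r) → b (r⁻¹ • (y - x)) = 0 := fun y hy => by
    have h1 : 2 * r < ‖y - x‖ := by
      rw [mem_closedBall, dist_eq_norm, not_le] at hy
      exact hy
    refine b.zero_of_le_dist ?_
    rw [dist_zero_right, norm_smul, norm_inv, Real.norm_eq_abs, abs_of_pos hr]
    show (2 : ℝ) ≤ r⁻¹ * ‖y - x‖
    rw [inv_mul_eq_div, le_div_iff₀ hr]
    exact h1.le
  refine ⟨fun y => b (r⁻¹ • (y - x)), hb.comp (by fun_prop), ?_, fun y => b.nonneg,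
    fun y => b.le_one, ?_, ?_, ?_, ?_⟩
  · exact HasCompactSupport.intro (isCompact_closedBall x (2 * r)) hout
  · intro y hy
    refine b.one_of_mem_closedBall ?_
    rw [mem_closedBall, dist_zero_right, norm_smul, norm_inv, Real.norm_eq_abs, abs_of_pos hr]
    show r⁻¹ * ‖y - x‖ ≤ 1
    rw [inv_mul_eq_div, div_le_one hr, ← dist_eq_norm]
    exact mem_closedBall.1 hy
  · intro y hy
    by_contra hcon
    apply hy
    apply hout
    rw [mem_closedBall, dist_eq_norm]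
    exact hcon
  · intro y i
    rw [pd_scale hb, abs_mul, abs_of_pos (inv_pos.2 hr), inv_mul_eq_div]
    refine div_le_div_of_nonneg_right ?_ hr.le
    refine (hC1 i _).trans ?_
    have := Finset.single_le_sum (f := C1) (fun i _ => p1 i) (Finset.mem_univ i)
    linarith
  · intro y
    rw [lap_scale hb, abs_mul, abs_of_pos (by positivity), div_eq_inv_mul, inv_pow]
    refine mul_le_mul_of_nonneg_left ?_ (by positivity)
    unfold lap
    refine (Finset.abs_sum_le_sum_abs _ _).trans ?_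
    have : ∑ i, |pd i (pd i b) (r⁻¹ • (y - x))| ≤ ∑ i, C2 i :=
      Finset.sum_le_sum fun i _ => hC2 i _
    linarith

end Pool.Agent.Q85.CC
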