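import Pool.Agent.Q85.CC.Vol
import Pool.Agent.Q199.VD.Flux
import Pool.Agent.H459R3.NS.High2

/-!
Project CC: the assembly of the parts.
-/

set_option autoImplicit false

open MeasureTheory Set Metric Filter Topology
open scoped ContDiff
open H459R3.NS Pool.Agent.W268.NS Pool.Agent.Q67.VD
open Pool.Agent.Q199.VD

namespace Pool.Agent.Q85.CC

lemma sdf_sol {T : ℝ} {u : ℝ → V → V} {p : ℝ → V → ℝ} (h : IsSol 1 T u p) {t : ℝ}
    (ht : t ∈ Ico 0 T) : SDF (u t) := ⟨fun i => h.sp ht i, h.divfree t ht⟩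

lemma om_per {v : V → V} (hv : ∀ i, SP (fun y => v y i)) : Per (om v) := by
  intro i x
  have h : vort v (x + Pi.single i 1) = vort v x := by
    funext j
    exact (sp_vort hv j).per i x
  unfold om
  rw [h]

lemma int_shift {f : V → ℝ} (hf : Per f) (m : K3) (x : V) (ρ : ℝ) :
    ∫ y in closedBall (x + fun i => (m i : ℝ)) ρ, f y = ∫ y in closedBall x ρ, f y := by
  obtain ⟨a, ha⟩ : ∃ a : V, a = fun i => (m i : ℝ) := ⟨_, rfl⟩
  have h1 : closedBall x ρ = (fun y => y + a) ⁻¹' closedBall (x + a) ρ := by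
    ext y
    simp [mem_closedBall]
  have h2 : ∫ y in (fun y => y + a) ⁻¹' closedBall (x + a) ρ, f (y + a)
      = ∫ y in closedBall (x + a) ρ, f y :=
    (measurePreserving_add_right (volume : Measure V) a).setIntegral_preimage_emb
      (measurableEmbedding_addRight a) f _
  have h3 : ∀ y, f (y + a) = f y := fun y => by
    rw [ha]
    exact hf.int m y
  rw [← ha, ← h2, ← h1]
  simp_rw [h3]

lemma mem_cube_shift (x : V) : ∃ m : K3, (x + fun i => (m i : ℝ)) ∈ cube := by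
  refine ⟨fun i => -⌊x i⌋, ?_⟩
  constructor
  · intro i
    show (0 : ℝ) ≤ x i + ((-⌊x i⌋ : ℤ) : ℝ)
    have := Int.floor_le (x i)
    push_cast
    linarith
  · intro i
    show x i + ((-⌊x i⌋ : ℤ) : ℝ) ≤ (1 : ℝ)
    have := (Int.lt_floor_add_one (x i)).le
    push_cast
    linarith

lemma cone_of {v : V → V} {κ M R : ℝ} (hκ1 : κ ≤ 1) (hM : 0 ≤ M) {R' : ℝ}
    (hR' : 2 * R' ≤ R) (h : ∀ x y, ‖x - y‖ ≤ R → M < om v x → M < om v y →
      κ * (om v x * om v y) ≤ vort v x ⬝ᵥ vort v y) (x : V) :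
    ∃ e, Cone κ (2 * M) R' e x v := by
  -- points with little vorticity
  have low : ∀ e : V, e ⬝ᵥ e = 1 → ∀ y, om v y ≤ M → κ * om v y ≤ e ⬝ᵥ vort v y + 2 * M := by
    intro e he y hy
    have h1 : |e ⬝ᵥ vort v y| ≤ len e * len (vort v y) := dot_le_len _ _
    have h2 : len e = 1 := by
      unfold len
      rw [he, Real.sqrt_one]
    rw [h2, one_mul] at h1
    have h3 : len (vort v y) = om v y := rfl
    rw [h3] at h1
    have h4 := (abs_le.1 h1).1
    have h5 : κ * om v y ≤ 1 * om v y := mul_le_mul_of_nonneg_right hκ1 (om_nonneg _ _)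
    linarith
  by_cases hy : ∃ y0, ‖y0 - x‖ ≤ R' ∧ M < om v y0
  · obtain ⟨y0, hy0, hM0⟩ := hy
    have h0 : 0 < om v y0 := hM.trans_lt hM0
    have hee : ((om v y0)⁻¹ • vort v y0) ⬝ᵥ ((om v y0)⁻¹ • vort v y0) = 1 := by
      rw [smul_dotProduct, dotProduct_smul, ← om_sq, smul_eq_mul, smul_eq_mul]
      field_simp
    refine ⟨(om v y0)⁻¹ • vort v y0, hee, fun y hyR => ?_⟩
    by_cases hyM : M < om v y
    · have h1 : ‖y0 - y‖ ≤ R := by
        have e1 : y0 - y = (y0 - x) - (y - x) := by abel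
        rw [e1]
        exact (norm_sub_le _ _).trans (by linarith)
      have h2 := h y0 y h1 hM0 hyM
      rw [smul_dotProduct, smul_eq_mul]
      have h3 : κ * om v y = (om v y0)⁻¹ * (κ * (om v y0 * om v y)) := by
        field_simp
      rw [h3]
      have h4 := mul_le_mul_of_nonneg_left h2 (inv_nonneg.2 h0.le)
      linarith
    · exact low _ hee y (not_lt.1 hyM)
  · push Not at hy
    have hee : (Pi.single 0 1 : V) ⬝ᵥ (Pi.single 0 1 : V) = 1 := by simp
    exact ⟨Pi.single 0 1, hee, fun y hyR => low _ hee y (hy y hyR)⟩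

set_option maxHeartbeats 1600000 in
theorem cone (hFlux : StmFlux) (hSmall : StmSmall) (hEn : StmEn) (hVel : StmVel) (hGood : StmGood)
    (hAna : StmAna) (hPinch : StmPinch) : StmCone := by
  obtain ⟨CF, hCF, hFlux⟩ := hFlux
  obtain ⟨cS, hcS, hSmall⟩ := hSmall
  obtain ⟨CV, hCV, hVel⟩ := hVel
  obtain ⟨cG, hcG, hGood⟩ := hGood
  intro T u p hT hu T₀ κ₀ M R₀ hT₀ hT₀T hκ₀ hM hR₀ hcone₀
  by_contra hcon
  -- normalisation of the constants
  obtain ⟨κ, hκd⟩ : ∃ κ, κ = min κ₀ 1 := ⟨_, rfl⟩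
  have hκ : 0 < κ := by rw [hκd]; exact lt_min hκ₀ one_pos
  have hκ1 : κ ≤ 1 := by rw [hκd]; exact min_le_right _ _
  have hκκ : κ ≤ κ₀ := by rw [hκd]; exact min_le_left _ _
  obtain ⟨R, hRd⟩ : ∃ R, R = min R₀ 1 := ⟨_, rfl⟩
  have hR : 0 < R := by rw [hRd]; exact lt_min hR₀ one_pos
  have hR1 : R ≤ 1 := by rw [hRd]; exact min_le_right _ _
  have hRR : R ≤ R₀ := by rw [hRd]; exact min_le_left _ _
  have hcone : ∀ t ∈ Ioo T₀ T, ∀ x y, ‖x - y‖ ≤ R → M < om (u t) x → M < om (u t) y →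
      κ * (om (u t) x * om (u t) y) ≤ vort (u t) x ⬝ᵥ vort (u t) y := by
    intro t ht x y hxy hx hy
    refine le_trans ?_ (hcone₀ t ht x y (hxy.trans hRR) hx hy)
    exact mul_le_mul_of_nonneg_right hκκ (mul_nonneg (om_nonneg _ _) (om_nonneg _ _))
  have hIco : ∀ t ∈ Ioo T₀ T, t ∈ Ico 0 T := fun t ht => ⟨hT₀.trans ht.1.le, ht.2⟩
  -- the Morrey bound
  obtain ⟨E0, hE0⟩ : ∃ E0, E0 = energy (u 0) := ⟨_, rfl⟩
  have hE0n : 0 ≤ E0 := by rw [hE0]; exact H459R3.NS.energy_nonneg _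
  obtain ⟨K, hKd⟩ : ∃ K, K = CF / κ ^ 2 * (√(E0 / R) + M * R ^ 2) := ⟨_, rfl⟩
  have hK : 0 ≤ K := by rw [hKd]; positivity
  have hen : ∀ t ∈ Ioo T₀ T, energy (u t) ≤ E0 := fun t ht => by
    rw [hE0]; exact hu.energy_le one_pos (hIco t ht)
  have hMor : ∀ t ∈ Ioo T₀ T, Mor K (R / 8) (om (u t)) := by
    intro t ht
    have h1 := hFlux (u t) M R κ (fun i => hu.sp (hIco t ht) i) (hu.divfree t (hIco t ht)) hM hR hR1
      hκ hκ1 (hcone t ht)
    intro x r hr hrR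
    refine (h1 x r hr hrR).trans (mul_le_mul_of_nonneg_right ?_ hr.le)
    rw [hKd]
    refine mul_le_mul_of_nonneg_left ?_ (by positivity)
    have h2 := Real.sqrt_le_sqrt (div_le_div_of_nonneg_right (hen t ht) hR.le)
    linarith
  have hR8 : 0 < R / 8 := by positivity
  -- the dissipation
  obtain ⟨C₁, r₁, hC₁, hr₁, hdis⟩ := hEn T u p hT hu T₀ K (R / 8) hT₀ hT₀T hK hR8 hMor
  -- the mollified velocity
  obtain ⟨KV, hKVd⟩ : ∃ KV, KV = CV * (K + √(E0 / (R / 8) ^ 3)) := ⟨_, rfl⟩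
  have hKV : 0 ≤ KV := by rw [hKVd]; positivity
  have hmol : ∀ τ ∈ Ioo T₀ T, ∀ y, ∀ ρ, 0 < ρ → ρ ≤ R / 8 → ‖W221.NS.mol ρ u τ y‖ ≤ KV / ρ := by
    intro τ hτ y ρ hρ hρR
    rw [pi_norm_le_iff_of_nonneg (by positivity)]
    intro i
    have h1 := (hVel (u τ) K (R / 8) ρ (sdf_sol hu (hIco τ hτ)) hK hρ hρR (by linarith)
      (hMor τ hτ) y i).2
    rw [Real.norm_eq_abs]
    refine h1.trans ?_
    rw [hKVd, mul_div_assoc]
    refine mul_le_mul_of_nonneg_left ?_ hCV.le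
    rw [add_div]
    have h2 : √(energy (u τ) / (R / 8) ^ 3) ≤ √(E0 / (R / 8) ^ 3) :=
      Real.sqrt_le_sqrt (div_le_div_of_nonneg_right (hen τ hτ) (by positivity))
    have h3 : √(E0 / (R / 8) ^ 3) ≤ √(E0 / (R / 8) ^ 3) / ρ := by
      rw [le_div_iff₀ hρ]
      exact mul_le_of_le_one_right (Real.sqrt_nonneg _) (by linarith)
    linarith
  -- the constants of the parts
  obtain ⟨σ, lam, cP, hσ, hσ8, hlam, hlam2, hcP, hcP1, hPin⟩ := hPinch κ hκ hκ1
  obtain ⟨h, L, hh, hh1, hL, hGood⟩ := hGood KV C₁ σ hKV hC₁ hσ (by linarith)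
  obtain ⟨r₀, hr₀, hGood⟩ := hGood T u p hT hu
  obtain ⟨η, hηd⟩ : ∃ η, η = min cS 1 := ⟨_, rfl⟩
  have hη : 0 < η := by rw [hηd]; exact lt_min hcS one_pos
  have hη1 : η ≤ 1 := by rw [hηd]; exact min_le_right _ _
  have hηc : η ≤ cS := by rw [hηd]; exact min_le_left _ _
  obtain ⟨τ, w₀, hτ, hw₀, hw₀h, hAna⟩ := hAna cG h (cP * η / 8) hcG hh hh1 (by positivity)
  obtain ⟨τ', hτ'd⟩ : ∃ τ', τ' = min τ 1 := ⟨_, rfl⟩
  have hτ' : 0 < τ' := by rw [hτ'd]; exact lt_min hτ one_pos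
  have hτ'1 : τ' ≤ 1 := by rw [hτ'd]; exact min_le_right _ _
  have hτ'τ : τ' ≤ τ := by rw [hτ'd]; exact min_le_left _ _
  obtain ⟨N, hPin⟩ := hPin K η τ' hK hη hη1 hτ' hτ'1
  -- the large scale
  obtain ⟨S, hSd⟩ : ∃ S, S = min (R / 8) (min r₀ (min (r₁ / L) (min ((T - T₀) / (2 * L))
    (cP * η * τ' / (2 * M + 1))))) := ⟨_, rfl⟩
  have hL0 : 0 < L := by linarith
  have hS : 0 < S := by
    rw [hSd]
    refine lt_min hR8 (lt_min hr₀ (lt_min (by positivity) (lt_min ?_ (by positivity))))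
    exact div_pos (by linarith) (by positivity)
  have hS1 : S ≤ R / 8 := by rw [hSd]; exact min_le_left _ _
  have hS2 : S ≤ r₀ := by rw [hSd]; exact (min_le_right _ _).trans (min_le_left _ _)
  have hS3 : S ≤ r₁ / L := by
    rw [hSd]; exact (min_le_right _ _).trans ((min_le_right _ _).trans (min_le_left _ _))
  have hS4 : S ≤ (T - T₀) / (2 * L) := by
    rw [hSd]
    exact (min_le_right _ _).trans ((min_le_right _ _).trans ((min_le_right _ _).trans
      (min_le_left _ _)))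
  have hS5 : S ≤ cP * η * τ' / (2 * M + 1) := by
    rw [hSd]
    exact (min_le_right _ _).trans ((min_le_right _ _).trans ((min_le_right _ _).trans
      (min_le_right _ _)))
  have hSle1 : S ≤ 1 := by linarith
  -- concentration
  have hex : ∃ t, max ((T₀ + T) / 2) (T / 2) < t ∧ t < T ∧ ∃ x ρ, 0 < ρ ∧ ρ ≤ lam ^ N * S ∧
      η * ρ ≤ ∫ y in closedBall x ρ, om (u t) y := by
    by_contra hno
    push Not at hno
    refine hcon (hSmall T u p hT hu (max ((T₀ + T) / 2) (T / 2)) (lam ^ N * S)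
      (le_max_of_le_right (by linarith)) (max_lt (by linarith) (by linarith)) (by positivity) ?_)
    intro t ht x r hr hrS
    have h1 := hno t ht.1 ht.2 x r hr hrS
    have h2 : ∫ y in closedBall x r, |om (u t) y| = ∫ y in closedBall x r, om (u t) y := by
      congr 1
      funext y
      exact abs_of_nonneg (om_nonneg _ _)
    rw [h2]
    exact h1.le.trans (mul_le_mul_of_nonneg_right hηc hr.le)
  obtain ⟨t, ht1, ht2, x₀, ρ, hρ, hρS, hconc₀⟩ := hex
  have htT : t ∈ Ioo T₀ T := ⟨by linarith [le_max_left ((T₀ + T) / 2) (T / 2)], ht2⟩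
  have hsp := fun i => hu.sp (hIco t htT) i
  -- shift to the cell
  obtain ⟨m, hm⟩ := mem_cube_shift x₀
  obtain ⟨x, hxd⟩ : ∃ x : V, x = x₀ + fun i => (m i : ℝ) := ⟨_, rfl⟩
  rw [← hxd] at hm
  have hconc : η * ρ ≤ ∫ y in closedBall x ρ, om (u t) y := by
    rw [hxd, int_shift (om_per hsp)]
    exact hconc₀
  -- the cone
  obtain ⟨e, hcn⟩ := cone_of hκ1 hM (R' := S) (by linarith) (hcone t htT) x
  have habs : ∀ s, ∫ y in closedBall x s, |om (u t) y| = ∫ y in closedBall x s, om (u t) y := by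
    intro s
    congr 1
    funext y
    exact abs_of_nonneg (om_nonneg _ _)
  obtain ⟨k, hk, hpin⟩ := hPin (u t) x e (2 * M) S ρ (sdf_sol hu (hIco t htT)) (by positivity) hS
    hSle1 hcn (fun s hs hsS => by rw [← habs]; exact hMor t htT x s hs (hsS.trans hS1))
    (by
      have h1 : 2 * M * S ^ 2 ≤ (2 * M + 1) * S := by
        have h2 : S ^ 2 ≤ S := pow_le_of_le_one hS.le hSle1 two_ne_zero
        have h4 : 2 * M * S ^ 2 ≤ 2 * M * S := mul_le_mul_of_nonneg_left h2 (by positivity)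
        linarith
      have h3 : (2 * M + 1) * S ≤ cP * η * τ' := by
        rw [le_div_iff₀ (by positivity)] at hS5
        linarith
      linarith) hρ hρS hconc
  -- the scale
  obtain ⟨r, hrd⟩ : ∃ r, r = lam ^ k * (S / 4) := ⟨_, rfl⟩
  rw [← hrd] at hpin
  have hr : 0 < r := by rw [hrd]; positivity
  have hrS : r ≤ S := by
    rw [hrd]
    have h1 : lam ^ k ≤ 1 := pow_le_one₀ hlam.le (by linarith)
    have h2 : lam ^ k * (S / 4) ≤ 1 * (S / 4) := mul_le_mul_of_nonneg_right h1 (by positivity)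
    linarith
  have hr1 : r ≤ 1 := hrS.trans hSle1
  have hLr : L * r ≤ r₁ := by
    rw [le_div_iff₀ hL0] at hS3
    have h2 : L * r ≤ L * S := mul_le_mul_of_nonneg_left hrS hL0.le
    linarith
  have hLr2 : L * r ^ 2 ≤ (T - T₀) / 2 := by
    rw [le_div_iff₀ (by positivity)] at hS4
    have h1 : r ^ 2 ≤ r := pow_le_of_le_one hr.le hr1 two_ne_zero
    have h2 : L * r ^ 2 ≤ L * S := mul_le_mul_of_nonneg_left (h1.trans hrS) hL0.le
    linarith
  have ht3 : (T₀ + T) / 2 < t := (le_max_left _ _).trans_lt ht1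
  have ht4 : T / 2 ≤ t := ((le_max_right _ _).trans_lt ht1).le
  obtain ⟨s, hs, hgd⟩ := hGood t r x e hr (hrS.trans hS2) ht4 ht2 hm hcn.1
    (fun τ hτ y ρ hρ => hmol τ ⟨by linarith [hτ.1], hτ.2.trans ht2⟩ y ρ hρ.1
      (hρ.2.trans (hrS.trans hS1)))
    (fun y ρ hρ => hdis t ⟨ht3, ht2⟩ y ρ ⟨hρ.1, hρ.2.trans hLr⟩)
  -- the slab
  obtain ⟨w, hwd⟩ : ∃ w, w = min (w₀ * r) (σ * r / 4) := ⟨_, rfl⟩
  have hw : 0 < w := by rw [hwd]; exact lt_min (by positivity) (by positivity)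
  have hw1 : w ≤ w₀ * r := by rw [hwd]; exact min_le_left _ _
  have hw2 : w ≤ σ * r / 4 := by rw [hwd]; exact min_le_right _ _
  have hwr : w ≤ r / 4 := by
    have h2 : σ * r ≤ 1 / 8 * r := mul_le_mul_of_nonneg_right hσ8 hr.le
    linarith
  obtain ⟨hann, hflux⟩ := hpin s w hs.1 hs.2 hw hw2
  have hsm := hAna (u t) x e r s (fun i => (hsp i).smooth) hcn.1 hr
    (fun y hy hyr => hgd y hy (hyr.trans (by
      exact pow_le_pow_left₀ (by positivity) (by linarith) 2))) w hw hw1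
    (hann.trans (mul_le_mul_of_nonneg_right hτ'τ hw.le))
  have hvol := vol_disc e x s w (r / 4) hcn.1 hw.le hwr
  have hfin : volume (Disc e x s w (r / 4)) < ⊤ := hvol.trans_lt ENNReal.ofReal_lt_top
  have hint : ∫ y in Disc e x s w (r / 4), om (u t) y
      ≤ cP * η / 8 / r ^ 2 * (volume (Disc e x s w (r / 4))).toReal := by
    have h1 := norm_setIntegral_le_of_norm_le_const (μ := volume) (s := Disc e x s w (r / 4))
      (f := om (u t)) (C := cP * η / 8 / r ^ 2) hfin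
      (fun y hy => by rw [Real.norm_eq_abs, abs_of_nonneg (om_nonneg _ _)]; exact hsm y hy)
    exact (Real.le_norm_self _).trans h1
  have hvr : (volume (Disc e x s w (r / 4))).toReal ≤ 64 * (r / 4) ^ 2 * w :=
    ENNReal.toReal_le_of_le_ofReal (by positivity) hvol
  have hfinal : ∫ y in Disc e x s w (r / 4), om (u t) y ≤ cP * η * w / 2 := by
    refine hint.trans ((mul_le_mul_of_nonneg_left hvr (by positivity)).trans (le_of_eq ?_))
    field_simp
    ring
  have hpos : 0 < cP * η * w := by positivity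
  linarith

end Pool.Agent.Q85.CC
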