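import Pool.Agent.Q85.CC.Defs2
import Pool.Agent.Q85.CC.Cut2
import Pool.Agent.W335.MD.CT
import Pool.Agent.W333.MD.PCONT
import Pool.Agent.H459R3.NS.High2
import Pool.Agent.Q199.VD.Flux

/-!
Project CC: the bound of the scaled dissipation.
-/

set_option autoImplicit false

open MeasureTheory Set Metric Filter Topology
open scoped ContDiff
open H459R3.NS Pool.Agent.W268.NS Pool.Agent.Q67.VD

namespace Pool.Agent.Q85.CC

lemma geo_half (m : ℕ) : ∑ j ∈ Finset.range m, (1 / 2 : ℝ) ^ j ≤ 2 := by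
  have h := geom_sum_eq (show (1 / 2 : ℝ) ≠ 1 by norm_num) m
  rw [h]
  have : (0 : ℝ) ≤ (1 / 2) ^ m := by positivity
  have e : ((1 / 2 : ℝ) ^ m - 1) / (1 / 2 - 1) = 2 - 2 * (1 / 2) ^ m := by ring
  rw [e]
  linarith

/-- The recursion. -/
lemma rec_bound {e : ℕ → ℝ} {B : ℝ} (hB : 0 ≤ B) (h0 : ∀ m < 6, e m ≤ B)
    (h : ∀ n, 6 ≤ n → e n ≤ 1 / 8 * ∑ j ∈ Finset.range (n - 2), (1 / 2 : ℝ) ^ j * e (n - 3 - j)
      + B / 2) : ∀ n, e n ≤ B := by
  intro n
  induction n using Nat.strong_induction_on with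
  | _ n ih =>
    by_cases hn : n < 6
    · exact h0 n hn
    · have h1 := h n (by omega)
      have h2 : ∑ j ∈ Finset.range (n - 2), (1 / 2 : ℝ) ^ j * e (n - 3 - j)
          ≤ ∑ j ∈ Finset.range (n - 2), (1 / 2 : ℝ) ^ j * B :=
        Finset.sum_le_sum fun j _ =>
          mul_le_mul_of_nonneg_left (ih _ (by omega)) (by positivity)
      rw [← Finset.sum_mul] at h2
      have h3 := mul_le_mul_of_nonneg_right (geo_half (n - 2)) hB
      linarith

/-- The differential inequality at one scale, integrated in time. -/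
lemma time_step {a t r : ℝ} (hr : 0 < r) (ha : a = t - 4 * r ^ 2) {Y Y' D R : ℝ → ℝ}
    (hY : ∀ τ ∈ Icc a t, HasDerivAt Y (Y' τ) τ) (hD : ContinuousOn D (Icc a t))
    (hR : ContinuousOn R (Icc a t)) (hle : ∀ τ ∈ Icc a t, Y' τ ≤ R τ - 2 * D τ)
    (hY0 : ∀ τ ∈ Icc a t, 0 ≤ Y τ) (hYR : ∀ τ ∈ Icc a t, Y τ ≤ r ^ 2 * R τ)
    (hD0 : ∀ τ ∈ Icc a t, 0 ≤ D τ) :
    ∫ τ in Ioo (t - r ^ 2) t, D τ ≤ ∫ τ in a..t, R τ := by
  have hr2 : 0 < r ^ 2 := by positivity
  have hat : a ≤ t := by rw [ha]; linarith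
  have hYc : ContinuousOn Y (Icc a t) := fun τ hτ => (hY τ hτ).continuousAt.continuousWithinAt
  have hid : ContinuousOn (fun τ : ℝ => τ - a) (Icc a t) := by fun_prop
  have hφ : ContinuousOn (fun τ => Y τ + (τ - a) * (R τ - 2 * D τ)) (Icc a t) :=
    hYc.add (hid.mul (hR.sub (hD.const_smul (2 : ℝ))))
  have h1 := intervalIntegral.sub_le_integral_of_hasDeriv_right_of_le (g := fun τ => (τ - a) * Y τ)
    (g' := fun τ => Y τ + (τ - a) * Y' τ) hat (hid.mul hYc)
    (fun τ hτ => by
      have h2 : HasDerivAt (fun τ : ℝ => τ - a) 1 τ := (hasDerivAt_id τ).sub_const a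
      have h3 := h2.mul (hY τ ⟨hτ.1.le, hτ.2.le⟩)
      rw [one_mul] at h3
      exact h3.hasDerivWithinAt)
    hφ.integrableOn_Icc
    (fun τ hτ => by
      have h2 := hle τ ⟨hτ.1.le, hτ.2.le⟩
      have h3 : 0 ≤ τ - a := by linarith [hτ.1]
      have h4 := mul_le_mul_of_nonneg_left h2 h3
      show Y τ + (τ - a) * Y' τ ≤ Y τ + (τ - a) * (R τ - 2 * D τ)
      linarith)
  have h2 : 0 ≤ (t - a) * Y t := mul_nonneg (by linarith) (hY0 t ⟨hat, le_rfl⟩)
  have h3 : (0 : ℝ) ≤ ∫ τ in a..t, (Y τ + (τ - a) * (R τ - 2 * D τ)) := by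
    have : (t - a) * Y t - (a - a) * Y a
        ≤ ∫ τ in a..t, (Y τ + (τ - a) * (R τ - 2 * D τ)) := h1
    rw [sub_self, zero_mul, sub_zero] at this
    linarith
  have hDi : ContinuousOn (fun τ => (τ - a) * (2 * D τ)) (Icc a t) :=
    hid.mul (hD.const_smul (2 : ℝ))
  have i1 : IntervalIntegrable (fun τ => Y τ + (τ - a) * R τ) volume a t :=
    (hYc.add (hid.mul hR)).intervalIntegrable_of_Icc hat
  have i2 : IntervalIntegrable (fun τ => (τ - a) * (2 * D τ)) volume a t :=
    hDi.intervalIntegrable_of_Icc hat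
  have e1 : ∫ τ in a..t, (Y τ + (τ - a) * (R τ - 2 * D τ))
      = (∫ τ in a..t, (Y τ + (τ - a) * R τ)) - ∫ τ in a..t, (τ - a) * (2 * D τ) := by
    rw [← intervalIntegral.integral_sub i1 i2]
    congr 1
    funext τ
    ring
  rw [e1] at h3
  have h4 : ∫ τ in a..t, (Y τ + (τ - a) * R τ) ≤ ∫ τ in a..t, 5 * r ^ 2 * R τ := by
    refine intervalIntegral.integral_mono_on hat i1
      ((hR.const_smul (5 * r ^ 2)).intervalIntegrable_of_Icc hat) fun τ hτ => ?_
    have q1 := hYR τ hτ
    have q2 : 0 ≤ R τ := by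
      have := (hY0 τ hτ).trans q1
      exact nonneg_of_mul_nonneg_right this hr2
    have q3 : (τ - a) * R τ ≤ (4 * r ^ 2) * R τ :=
      mul_le_mul_of_nonneg_right (by linarith [hτ.2]) q2
    linarith
  have h5 : ∫ τ in Ioo (t - r ^ 2) t, 6 * r ^ 2 * D τ ≤ ∫ τ in a..t, (τ - a) * (2 * D τ) := by
    rw [intervalIntegral.integral_of_le hat, integral_Ioc_eq_integral_Ioo]
    have hsub : Ioo (t - r ^ 2) t ⊆ Ioo a t := Ioo_subset_Ioo_left (by rw [ha]; linarith)
    calc ∫ τ in Ioo (t - r ^ 2) t, 6 * r ^ 2 * D τ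
        ≤ ∫ τ in Ioo (t - r ^ 2) t, (τ - a) * (2 * D τ) := by
          refine setIntegral_mono_on ?_ ?_ measurableSet_Ioo fun τ hτ => ?_
          · have hc : ContinuousOn (fun τ => 6 * r ^ 2 * D τ) (Icc a t) :=
              hD.const_smul (6 * r ^ 2)
            exact hc.integrableOn_Icc.mono_set (hsub.trans Ioo_subset_Icc_self)
          · exact hDi.integrableOn_Icc.mono_set (hsub.trans Ioo_subset_Icc_self)
          · have q1 := hD0 τ (Ioo_subset_Icc_self (hsub hτ))
            have q2 : 3 * r ^ 2 ≤ τ - a := by rw [ha]; linarith [hτ.1]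
            have q3 := mul_le_mul_of_nonneg_right q2 (show 0 ≤ 2 * D τ by linarith)
            linarith
      _ ≤ ∫ τ in Ioo a t, (τ - a) * (2 * D τ) := by
          refine setIntegral_mono_set (hDi.integrableOn_Icc.mono_set Ioo_subset_Icc_self) ?_
            hsub.eventuallyLE
          filter_upwards [ae_restrict_mem measurableSet_Ioo] with τ hτ
          have q1 := hD0 τ (Ioo_subset_Icc_self hτ)
          have q2 : 0 ≤ τ - a := by linarith [hτ.1]
          show 0 ≤ (τ - a) * (2 * D τ)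
          positivity
  rw [integral_const_mul] at h5
  rw [intervalIntegral.integral_const_mul] at h4
  have h6 : 6 * r ^ 2 * (∫ τ in Ioo (t - r ^ 2) t, D τ) ≤ 5 * r ^ 2 * ∫ τ in a..t, R τ := by
    linarith
  have h7 : 0 ≤ ∫ τ in Ioo (t - r ^ 2) t, D τ := by
    refine setIntegral_nonneg measurableSet_Ioo fun τ hτ => hD0 τ ?_
    exact ⟨by rw [ha]; linarith [hτ.1], hτ.2.le⟩
  have h8 : 5 * r ^ 2 * (∫ τ in Ioo (t - r ^ 2) t, D τ) ≤ 5 * r ^ 2 * ∫ τ in a..t, R τ := by
    have : 0 ≤ r ^ 2 * ∫ τ in Ioo (t - r ^ 2) t, D τ := mul_nonneg hr2.le h7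
    linarith
  exact le_of_mul_le_mul_left h8 (by positivity)

lemma gsq_nn (v : V → V) (x : V) : 0 ≤ W221.NS.gsq v x :=
  Finset.sum_nonneg fun _ _ => Finset.sum_nonneg fun _ _ => sq_nonneg _

lemma nsq_nn (v : V → V) (x : V) : 0 ≤ W221.NS.nsq v x :=
  Finset.sum_nonneg fun _ _ => sq_nonneg _

lemma gsq_cont {v : V → V} (hv : ∀ i, SP (fun y => v y i)) : Continuous (W221.NS.gsq v) := by
  unfold W221.NS.gsq
  exact continuous_finsetSum _ fun i _ => continuous_finsetSum _ fun j _ =>
    (smooth_pd (hv i).smooth j).continuous.pow 2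

lemma nsq_cont {v : V → V} (hv : ∀ i, SP (fun y => v y i)) : Continuous (W221.NS.nsq v) := by
  unfold W221.NS.nsq
  exact continuous_finsetSum _ fun i _ => (hv i).smooth.continuous.pow 2

lemma gsq_per {v : V → V} (hv : ∀ i, SP (fun y => v y i)) : Per (W221.NS.gsq v) := by
  intro k x
  unfold W221.NS.gsq
  refine Finset.sum_congr rfl fun i _ => Finset.sum_congr rfl fun j _ => ?_
  rw [((hv i).pd j).per k x]

lemma B2_nn (x : V) (s : ℝ) (v : V → V) : 0 ≤ W221.NS.B2 x s v :=
  integral_nonneg fun _ => gsq_nn _ _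

lemma B2_le_enst {v : V → V} (hv : ∀ i, SP (fun y => v y i)) (x : V) {s : ℝ} (hs : s ≤ 1 / 2) :
    W221.NS.B2 x s v ≤ enstrophy v := by
  have h1 := Q199.VD.ball_le (gsq_per hv) (gsq_cont hv) (gsq_nn v) x hs
  have h2 : W221.NS.B2 x s v ≤ ∫ y in closedBall x s, W221.NS.gsq v y := by
    unfold W221.NS.B2
    refine setIntegral_mono_set
      ((gsq_cont hv).continuousOn.integrableOn_compact (isCompact_closedBall x s))
      (Eventually.of_forall fun y => gsq_nn v y) (Eventually.of_forall ball_subset_closedBall)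
  have h3 : ∫ y in cube, W221.NS.gsq v y = enstrophy v := by
    unfold W221.NS.gsq enstrophy
    rw [integral_finsetSum]
    · refine Finset.sum_congr rfl fun i _ => ?_
      rw [integral_finsetSum]
      intro j _
      exact (((hv i).pd j).smooth.continuous.pow 2).continuousOn.integrableOn_compact isCompact_Icc
    · intro i _
      refine (Continuous.continuousOn ?_).integrableOn_compact isCompact_Icc
      exact continuous_finsetSum _ fun j _ => ((hv i).pd j).smooth.continuous.pow 2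
  linarith

lemma pow_id {n j : ℕ} (h : j + 3 ≤ n) (ρ : ℝ) :
    2 ^ (j + 3) * (ρ / 2 ^ n) = ρ / 2 ^ (n - 3 - j) := by
  have e : (2 : ℝ) ^ n = 2 ^ (j + 3) * 2 ^ (n - 3 - j) := by
    rw [← pow_add]
    congr 1
    omega
  rw [e]
  field_simp

theorem en (hF : StmFlx) (hL : StmLE) (hB : StmBern) : StmEn := by
  intro T u p hT hu T₀ K ρ₀ hT₀ hT₀T hK hρ₀ hMor
  obtain ⟨CB, hCB, hBern⟩ := hB
  obtain ⟨D, hD, hcut⟩ := cut2
  obtain ⟨ρ, hρdef⟩ : ∃ ρ, ρ = min ρ₀ (min (1 / 2) (√((T - T₀) / 2))) := ⟨_, rfl⟩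
  have hq : 0 < (T - T₀) / 2 := by linarith
  have hρ : 0 < ρ := by
    rw [hρdef]
    exact lt_min hρ₀ (lt_min (by norm_num) (Real.sqrt_pos.2 hq))
  have hρρ₀ : ρ ≤ ρ₀ := by rw [hρdef]; exact min_le_left _ _
  have hρ2 : ρ ≤ 1 / 2 := by rw [hρdef]; exact (min_le_right _ _).trans (min_le_left _ _)
  have hρT : ρ ^ 2 ≤ (T - T₀) / 2 := by
    have h1 : ρ ≤ √((T - T₀) / 2) := by
      rw [hρdef]; exact (min_le_right _ _).trans (min_le_right _ _)
    calc ρ ^ 2 ≤ √((T - T₀) / 2) ^ 2 := pow_le_pow_left₀ hρ.le h1 2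
      _ = _ := Real.sq_sqrt hq.le
  obtain ⟨E0, hE0⟩ : ∃ E0, E0 = energy (u 0) := ⟨_, rfl⟩
  have hE0n : 0 ≤ E0 := by rw [hE0]; exact energy_nonneg _
  obtain ⟨C, hC, hflx⟩ := hF K (√(E0 / ρ ^ 3)) ρ (1 / 64) D hK (Real.sqrt_nonneg _) hρ
    (by linarith) (by norm_num) hD
  obtain ⟨C', hC'⟩ : ∃ C', C' = C * (4 + CB * (5 * E0)) := ⟨_, rfl⟩
  have hC'n : 0 ≤ C' := by rw [hC']; positivity
  obtain ⟨B, hBd⟩ : ∃ B, B = 64 / ρ * E0 + 2 * C' := ⟨_, rfl⟩
  have hBn : 0 ≤ B := by rw [hBd]; positivity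
  have hsm : ContDiffOn ℝ ∞ (fun z : ℝ × V => u z.1 z.2) (Ioo 0 T ×ˢ univ) :=
    hu.smooth_u.mono (prod_mono Ioo_subset_Ico_self le_rfl)
  have hct := (W335.MD.t_CT Pool.Agent.W333.MD.t_PCONT) 0 T u hsm
  have hB2c : ∀ x s, ContinuousOn (fun τ => W221.NS.B2 x s (u τ)) (Ioo 0 T) := fun x s =>
    (hct.1 x s).2
  have hEc : ContinuousOn (fun τ => energy (u τ)) (Ioo 0 T) :=
    hu.energy_continuousOn.mono Ioo_subset_Ico_self
  have hSc : ContinuousOn (fun τ => enstrophy (u τ)) (Ioo 0 T) :=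
    hu.enstrophy_continuousOn.mono Ioo_subset_Ico_self
  have key : ∀ t ∈ Ioo ((T₀ + T) / 2) T, ∀ x, ∀ n : ℕ,
      ∫ τ in Ioo (t - (ρ / 2 ^ n) ^ 2) t, W221.NS.B2 x (ρ / 2 ^ n) (u τ) ≤ B * (ρ / 2 ^ n) := by
    intro t ht x
    have ht0 : T₀ < t - ρ ^ 2 := by linarith [ht.1]
    obtain ⟨I, hI⟩ : ∃ I : ℝ → ℝ, I = fun s => ∫ τ in Ioo (t - s ^ 2) t, W221.NS.B2 x s (u τ) :=
      ⟨_, rfl⟩
    have hrn : ∀ n : ℕ, 0 < ρ / 2 ^ n := fun n => by positivity
    have hrle : ∀ n : ℕ, ρ / 2 ^ n ≤ ρ := fun n => div_le_self hρ.le (one_le_pow₀ (by norm_num))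
    -- enstrophy in the window
    have hens : ∀ a, 0 ≤ a → a ≤ t → ∫ τ in a..t, enstrophy (u τ) ≤ E0 / 2 := by
      intro a ha hat
      have h1 := hu.int_enstrophy one_pos (t := t) ⟨by linarith, ht.2⟩
      rw [← hE0, mul_one] at h1
      have hc : ContinuousOn (fun τ => enstrophy (u τ)) (Icc 0 t) :=
        hu.enstrophy_continuousOn.mono fun s hs => ⟨hs.1, hs.2.trans_lt ht.2⟩
      have h2 : ∫ τ in (0 : ℝ)..t, enstrophy (u τ)
          = (∫ τ in (0 : ℝ)..a, enstrophy (u τ)) + ∫ τ in a..t, enstrophy (u τ) := by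
        rw [intervalIntegral.integral_add_adjacent_intervals]
        · exact (hc.mono (Icc_subset_Icc_right hat)).intervalIntegrable_of_Icc ha
        · exact (hc.mono (Icc_subset_Icc_left ha)).intervalIntegrable_of_Icc hat
      have h3 : 0 ≤ ∫ τ in (0 : ℝ)..a, enstrophy (u τ) :=
        intervalIntegral.integral_nonneg ha fun τ _ => enstrophy_nonneg _
      linarith
    have hIn : ∀ s, 0 ≤ I s := fun s => by
      rw [hI]
      exact integral_nonneg fun τ => B2_nn _ _ _
    -- windows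
    have hwin : ∀ s a, 0 < s → s ≤ ρ → t - s ^ 2 ≤ a → a ≤ t →
        ∫ τ in a..t, W221.NS.B2 x s (u τ) ≤ I s := by
      intro s a hs hsρ hsa hat
      have hs2 : s ^ 2 ≤ ρ ^ 2 := pow_le_pow_left₀ hs.le hsρ 2
      rw [intervalIntegral.integral_of_le hat, integral_Ioc_eq_integral_Ioo, hI]
      refine setIntegral_mono_set ?_ (Eventually.of_forall fun τ => B2_nn _ _ _)
        (Ioo_subset_Ioo_left hsa).eventuallyLE
      refine ((hB2c x s).mono (t := Icc (t - s ^ 2) t) ?_).integrableOn_Icc.mono_set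
        Ioo_subset_Icc_self
      intro τ hτ
      exact ⟨by linarith [hτ.1], hτ.2.trans_lt ht.2⟩
    have hIlarge : ∀ n : ℕ, I (ρ / 2 ^ n) ≤ E0 / 2 := by
      intro n
      have h1 : (ρ / 2 ^ n) ^ 2 ≤ ρ ^ 2 := pow_le_pow_left₀ (hrn n).le (hrle n) 2
      have h3 : t - (ρ / 2 ^ n) ^ 2 ≤ t := by
        have := sq_nonneg (ρ / 2 ^ n)
        linarith
      have h2 := hens (t - (ρ / 2 ^ n) ^ 2) (by linarith) h3
      rw [intervalIntegral.integral_of_le h3, integral_Ioc_eq_integral_Ioo] at h2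
      refine le_trans ?_ h2
      rw [hI]
      have hsub : Icc (t - (ρ / 2 ^ n) ^ 2) t ⊆ Ioo 0 T := fun τ hτ =>
        ⟨by linarith [hτ.1], hτ.2.trans_lt ht.2⟩
      refine setIntegral_mono_on
        (((hB2c x _).mono hsub).integrableOn_Icc.mono_set Ioo_subset_Icc_self)
        ((hSc.mono hsub).integrableOn_Icc.mono_set Ioo_subset_Icc_self) measurableSet_Ioo
        fun τ hτ => ?_
      have hτI := hsub (Ioo_subset_Icc_self hτ)
      exact B2_le_enst (fun i => hu.sp ⟨hτI.1.le, hτI.2⟩ i) x ((hrle n).trans hρ2)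
    -- one scale
    have hstep : ∀ n : ℕ, 6 ≤ n → I (ρ / 2 ^ n) ≤ 1 / 64 * ∑ j ∈ Finset.range (n - 2),
        (1 / 4 : ℝ) ^ j * I (2 ^ (j + 3) * (ρ / 2 ^ n)) + C' * (ρ / 2 ^ n) := by
      intro n hn
      obtain ⟨r, hr⟩ : ∃ r, r = ρ / 2 ^ n := ⟨_, rfl⟩
      have hr0 : 0 < r := by rw [hr]; exact hrn n
      have hr64 : 64 * r ≤ ρ := by
        rw [hr]
        have h1 : (2 : ℝ) ^ 6 ≤ 2 ^ n := pow_le_pow_right₀ (by norm_num) hn
        rw [mul_div_assoc', div_le_iff₀ (by positivity)]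
        nlinarith
      have hr1 : r ≤ 1 := by linarith
      obtain ⟨a, ha⟩ : ∃ a, a = t - 4 * r ^ 2 := ⟨_, rfl⟩
      have har : 4 * r ^ 2 ≤ ρ ^ 2 := by nlinarith
      have haT : T₀ < a := by rw [ha]; linarith
      have hat : a ≤ t := by
        rw [ha]
        have := sq_nonneg r
        linarith
      have hsub : Icc a t ⊆ Ioo 0 T := fun τ hτ => ⟨by linarith [hτ.1], hτ.2.trans_lt ht.2⟩
      have hsub2 : Icc a t ⊆ Ioo T₀ T := fun τ hτ => ⟨by linarith [hτ.1], hτ.2.trans_lt ht.2⟩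
      obtain ⟨φ, hφs, hφc, hφ0, hφ1, hφe, hφz, hφp, hφl⟩ := hcut x r hr0
      obtain ⟨R, hR⟩ : ∃ R : ℝ → ℝ, R = fun τ => 1 / 64 * (∑ j ∈ Finset.range (n - 2),
          (1 / 4 : ℝ) ^ j * W221.NS.B2 x (2 ^ (j + 3) * r) (u τ))
          + C * (1 / r + r ^ 2 * (CB * (energy (u τ) + enstrophy (u τ)))) := ⟨_, rfl⟩
      have hpt : ∀ τ ∈ Icc a t,
          |∫ y, W221.NS.nsq (u τ) y * lap φ y|
            + |2 * ∫ y, (p τ y + W221.NS.nsq (u τ) y / 2) * W221.NS.adv (u τ) φ y|
            + (∫ y in closedBall x (2 * r), W221.NS.nsq (u τ) y) / r ^ 2 ≤ R τ := by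
        intro τ hτ
        have hτI := hsub hτ
        have hτC : τ ∈ Ico 0 T := ⟨hτI.1.le, hτI.2⟩
        obtain ⟨b1, b2, b3, m, b4⟩ := hBern T u p hu τ hτI
        have hen : √(energy (u τ) / ρ ^ 3) ≤ √(E0 / ρ ^ 3) := by
          apply Real.sqrt_le_sqrt
          apply div_le_div_of_nonneg_right _ (by positivity)
          rw [hE0]
          exact hu.energy_le one_pos hτC
        have hM : Mor K ρ (om (u τ)) := fun x r h1 h2 =>
          hMor τ (hsub2 hτ) x r h1 (h2.trans hρρ₀)
        have h1 := hflx (u τ) (fun y => p τ y + W221.NS.nsq (u τ) y / 2) m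
          (CB * (energy (u τ) + enstrophy (u τ)))
          ⟨fun i => hu.sp hτC i, hu.divfree τ hτC⟩ b1 b2 b3 hM hen b4 n hn x φ hφs
          (by rw [← hr]; exact hφz) (by rw [← hr]; exact hφp) (by rw [← hr]; exact hφl)
        rw [← hr] at h1
        rw [hR]
        exact h1
      have hRc : ContinuousOn R (Icc a t) := by
        rw [hR]
        apply ContinuousOn.add
        · apply ContinuousOn.mul continuousOn_const
          exact continuousOn_finsetSum _ fun j _ =>
            continuousOn_const.mul ((hB2c x _).mono hsub)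
        · apply ContinuousOn.mul continuousOn_const
          apply ContinuousOn.add continuousOn_const
          apply ContinuousOn.mul continuousOn_const
          apply ContinuousOn.mul continuousOn_const
          exact (hEc.mono hsub).add (hSc.mono hsub)
      have hts := time_step (a := a) (t := t) (r := r) hr0 ha
        (Y := fun τ => ∫ y, W221.NS.nsq (u τ) y * φ y)
        (D := fun τ => W221.NS.B2 x r (u τ)) (R := R)
        (fun τ hτ => hL T u p hu φ hφs hφc τ (hsub hτ)) ((hB2c x r).mono hsub) hRc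
        (fun τ hτ => by
          have hτI := hsub hτ
          have hsp : ∀ i, SP (fun y => u τ y i) := fun i => hu.sp ⟨hτI.1.le, hτI.2⟩ i
          have h1 := hpt τ hτ
          have h2 : 0 ≤ (∫ y in closedBall x (2 * r), W221.NS.nsq (u τ) y) / r ^ 2 :=
            div_nonneg (integral_nonneg fun y => nsq_nn _ _) (by positivity)
          have h3 : W221.NS.B2 x r (u τ) ≤ ∫ y, W221.NS.gsq (u τ) y * φ y := by
            unfold W221.NS.B2
            have hint : Integrable (fun y => W221.NS.gsq (u τ) y * φ y) :=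
              (((gsq_cont hsp).mul hφs.continuous)).integrable_of_hasCompactSupport
                (hφc.mul_left)
            calc ∫ y in ball x r, W221.NS.gsq (u τ) y
                = ∫ y in ball x r, W221.NS.gsq (u τ) y * φ y := by
                  refine setIntegral_congr_fun measurableSet_ball fun y hy => ?_
                  show W221.NS.gsq (u τ) y = W221.NS.gsq (u τ) y * φ y
                  rw [hφe y (ball_subset_closedBall hy), mul_one]
              _ ≤ ∫ y, W221.NS.gsq (u τ) y * φ y :=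
                  setIntegral_le_integral hint
                    (Eventually.of_forall fun y => mul_nonneg (gsq_nn _ _) (hφ0 y))
          have h4 := le_abs_self (∫ y, W221.NS.nsq (u τ) y * lap φ y)
          have h5 := le_abs_self
            (2 * ∫ y, (p τ y + W221.NS.nsq (u τ) y / 2) * W221.NS.adv (u τ) φ y)
          linarith)
        (fun τ hτ => integral_nonneg fun y => mul_nonneg (nsq_nn _ _) (hφ0 y))
        (fun τ hτ => by
          have hτI := hsub hτ
          have hsp : ∀ i, SP (fun y => u τ y i) := fun i => hu.sp ⟨hτI.1.le, hτI.2⟩ i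
          have h1 := hpt τ hτ
          have h2 := abs_nonneg (∫ y, W221.NS.nsq (u τ) y * lap φ y)
          have h3 := abs_nonneg
            (2 * ∫ y, (p τ y + W221.NS.nsq (u τ) y / 2) * W221.NS.adv (u τ) φ y)
          have h4 : (∫ y in closedBall x (2 * r), W221.NS.nsq (u τ) y) / r ^ 2 ≤ R τ := by
            linarith
          rw [div_le_iff₀ (by positivity)] at h4
          have h5 : ∫ y, W221.NS.nsq (u τ) y * φ y
              ≤ ∫ y in closedBall x (2 * r), W221.NS.nsq (u τ) y := by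
            rw [← integral_indicator measurableSet_closedBall]
            refine integral_mono_of_nonneg
              (Eventually.of_forall fun y => mul_nonneg (nsq_nn _ _) (hφ0 y)) ?_
              (Eventually.of_forall fun y => ?_)
            · rw [integrable_indicator_iff measurableSet_closedBall]
              exact (nsq_cont hsp).continuousOn.integrableOn_compact (isCompact_closedBall x _)
            · show W221.NS.nsq (u τ) y * φ y
                ≤ (closedBall x (2 * r)).indicator (W221.NS.nsq (u τ)) y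
              by_cases hy : y ∈ closedBall x (2 * r)
              · rw [indicator_of_mem hy]
                have := mul_le_mul_of_nonneg_left (hφ1 y) (nsq_nn (u τ) y)
                linarith
              · rw [indicator_of_notMem hy]
                have h0 : φ y = 0 := by
                  by_contra hcon
                  apply hy
                  rw [mem_closedBall, dist_eq_norm]
                  exact hφz y hcon
                rw [h0, mul_zero]
          linarith)
        (fun τ hτ => B2_nn _ _ _)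
      have hI1 : I r ≤ ∫ τ in a..t, R τ := by
        rw [hI]
        exact hts
      have hsj : ∀ j ∈ Finset.range (n - 2), 2 ^ (j + 3) * r ≤ ρ ∧ 0 < 2 ^ (j + 3) * r := by
        intro j hj
        rw [Finset.mem_range] at hj
        rw [hr, pow_id (by omega)]
        exact ⟨hrle _, hrn _⟩
      have i1 : ∀ j ∈ Finset.range (n - 2), IntervalIntegrable
          (fun τ => (1 / 4 : ℝ) ^ j * W221.NS.B2 x (2 ^ (j + 3) * r) (u τ)) volume a t :=
        fun j _ => (continuousOn_const.mul ((hB2c x _).mono hsub)).intervalIntegrable_of_Icc hat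
      have i2 : IntervalIntegrable (fun τ => 1 / 64 * (∑ j ∈ Finset.range (n - 2),
          (1 / 4 : ℝ) ^ j * W221.NS.B2 x (2 ^ (j + 3) * r) (u τ))) volume a t := by
        apply IntervalIntegrable.const_mul
        exact (continuousOn_finsetSum _ fun j _ =>
            continuousOn_const.mul ((hB2c x _).mono hsub)).intervalIntegrable_of_Icc hat
      have i3 : IntervalIntegrable (fun τ => C * (1 / r + r ^ 2 *
          (CB * (energy (u τ) + enstrophy (u τ))))) volume a t := by
        refine ContinuousOn.intervalIntegrable_of_Icc hat ?_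
        apply ContinuousOn.mul continuousOn_const
        apply ContinuousOn.add continuousOn_const
        apply ContinuousOn.mul continuousOn_const
        apply ContinuousOn.mul continuousOn_const
        exact (hEc.mono hsub).add (hSc.mono hsub)
      have e1 : ∫ τ in a..t, R τ = 1 / 64 * (∑ j ∈ Finset.range (n - 2),
          (1 / 4 : ℝ) ^ j * ∫ τ in a..t, W221.NS.B2 x (2 ^ (j + 3) * r) (u τ))
          + ∫ τ in a..t, C * (1 / r + r ^ 2 * (CB * (energy (u τ) + enstrophy (u τ)))) := by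
        rw [hR, intervalIntegral.integral_add i2 i3, intervalIntegral.integral_const_mul,
          intervalIntegral.integral_finsetSum i1]
        congr 2
        refine Finset.sum_congr rfl fun j _ => ?_
        rw [intervalIntegral.integral_const_mul]
      have e2 : ∑ j ∈ Finset.range (n - 2),
          (1 / 4 : ℝ) ^ j * (∫ τ in a..t, W221.NS.B2 x (2 ^ (j + 3) * r) (u τ))
          ≤ ∑ j ∈ Finset.range (n - 2), (1 / 4 : ℝ) ^ j * I (2 ^ (j + 3) * r) := by
        refine Finset.sum_le_sum fun j hj => mul_le_mul_of_nonneg_left ?_ (by positivity)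
        refine hwin _ a (hsj j hj).2 (hsj j hj).1 ?_ hat
        rw [ha]
        have h1 : (2 : ℝ) ≤ 2 ^ (j + 3) := by
          have : (2 : ℝ) ^ 1 ≤ 2 ^ (j + 3) := pow_le_pow_right₀ (by norm_num) (by omega)
          linarith
        have h2 : 2 * r ≤ 2 ^ (j + 3) * r := mul_le_mul_of_nonneg_right h1 hr0.le
        nlinarith
      have e3 : ∫ τ in a..t, C * (1 / r + r ^ 2 * (CB * (energy (u τ) + enstrophy (u τ))))
          ≤ C' * r := by
        have g1 : ∫ τ in a..t, C * (1 / r + r ^ 2 * (CB * (energy (u τ) + enstrophy (u τ))))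
            ≤ ∫ τ in a..t, (C * (1 / r + r ^ 2 * (CB * E0)) + C * (r ^ 2 * CB) *
              enstrophy (u τ)) := by
          have hc2 : ContinuousOn (fun τ => C * (1 / r + r ^ 2 * (CB * E0)) + C * (r ^ 2 * CB) *
              enstrophy (u τ)) (Icc a t) :=
            continuousOn_const.add (continuousOn_const.mul (hSc.mono hsub))
          refine intervalIntegral.integral_mono_on hat i3 (hc2.intervalIntegrable_of_Icc hat)
            fun τ hτ => ?_
          have hτI := hsub hτ
          have h1 : energy (u τ) ≤ E0 := by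
            rw [hE0]
            exact hu.energy_le one_pos ⟨hτI.1.le, hτI.2⟩
          have h2 : C * (r ^ 2 * CB) * energy (u τ) ≤ C * (r ^ 2 * CB) * E0 :=
            mul_le_mul_of_nonneg_left h1 (by positivity)
          linarith
        have g2 : ∫ τ in a..t, (C * (1 / r + r ^ 2 * (CB * E0)) + C * (r ^ 2 * CB) *
              enstrophy (u τ)) = (t - a) * (C * (1 / r + r ^ 2 * (CB * E0)))
              + C * (r ^ 2 * CB) * ∫ τ in a..t, enstrophy (u τ) := by
          rw [intervalIntegral.integral_add intervalIntegrable_const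
            ((hSc.mono hsub).intervalIntegrable_of_Icc hat |>.const_mul _),
            intervalIntegral.integral_const, intervalIntegral.integral_const_mul, smul_eq_mul]
        have g3 := hens a (by linarith) hat
        have g4 : C * (r ^ 2 * CB) * (∫ τ in a..t, enstrophy (u τ))
            ≤ C * (r ^ 2 * CB) * (E0 / 2) := mul_le_mul_of_nonneg_left g3 (by positivity)
        have g5 : t - a = 4 * r ^ 2 := by rw [ha]; ring
        rw [g2, g5] at g1
        have g6 : 4 * r ^ 2 * (C * (1 / r + r ^ 2 * (CB * E0)))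
            = 4 * (C * r) + 4 * (C * CB * E0) * (r ^ 4) := by
          field_simp
        have g7 : r ^ 4 ≤ r := by
          have : r ^ 4 ≤ r ^ 1 := pow_le_pow_of_le_one hr0.le hr1 (by norm_num)
          simpa using this
        have g8 : r ^ 2 ≤ r := by
          have : r ^ 2 ≤ r ^ 1 := pow_le_pow_of_le_one hr0.le hr1 (by norm_num)
          simpa using this
        have g9 : 4 * (C * CB * E0) * r ^ 4 ≤ 4 * (C * CB * E0) * r :=
          mul_le_mul_of_nonneg_left g7 (by positivity)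
        have g10 : C * (r ^ 2 * CB) * (E0 / 2) ≤ (C * CB * E0) * r := by
          have : (C * CB * E0 / 2) * r ^ 2 ≤ (C * CB * E0 / 2) * r :=
            mul_le_mul_of_nonneg_left g8 (by positivity)
          have h0 : 0 ≤ (C * CB * E0 / 2) * r := by positivity
          linarith
        have g11 : C' * r = 4 * (C * r) + 5 * (C * CB * E0) * r := by rw [hC']; ring
        rw [g11]
        linarith
      have e4 : 1 / 64 * (∑ j ∈ Finset.range (n - 2),
          (1 / 4 : ℝ) ^ j * ∫ τ in a..t, W221.NS.B2 x (2 ^ (j + 3) * r) (u τ))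
          ≤ 1 / 64 * ∑ j ∈ Finset.range (n - 2), (1 / 4 : ℝ) ^ j * I (2 ^ (j + 3) * r) :=
        mul_le_mul_of_nonneg_left e2 (by norm_num)
      rw [← hr]
      linarith
    -- the recursion
    have hrec := rec_bound (e := fun n => I (ρ / 2 ^ n) / (ρ / 2 ^ n)) (B := B) hBn
      (fun m hm => by
        show I (ρ / 2 ^ m) / (ρ / 2 ^ m) ≤ B
        rw [div_le_iff₀ (hrn m)]
        have h1 := hIlarge m
        have h2 : (2 : ℝ) ^ m ≤ 2 ^ 6 := pow_le_pow_right₀ (by norm_num) hm.le
        have h3 : 64 / ρ * E0 * (ρ / 2 ^ m) = E0 * (64 / 2 ^ m) := by field_simp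
        have h4 : (1 : ℝ) ≤ 64 / 2 ^ m := by
          rw [le_div_iff₀ (by positivity)]
          linarith
        have h5 : E0 ≤ E0 * (64 / 2 ^ m) := le_mul_of_one_le_right hE0n h4
        have h6 : 0 ≤ 2 * C' * (ρ / 2 ^ m) := mul_nonneg (by linarith) (hrn m).le
        rw [hBd, add_mul, h3]
        linarith)
      (fun n hn => by
        show I (ρ / 2 ^ n) / (ρ / 2 ^ n) ≤ 1 / 8 * ∑ j ∈ Finset.range (n - 2),
          (1 / 2 : ℝ) ^ j * (I (ρ / 2 ^ (n - 3 - j)) / (ρ / 2 ^ (n - 3 - j))) + B / 2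
        have h1 := hstep n hn
        have h2 : ∀ j ∈ Finset.range (n - 2), (1 / 4 : ℝ) ^ j * I (2 ^ (j + 3) * (ρ / 2 ^ n))
            = 8 * ((1 / 2 : ℝ) ^ j * (I (ρ / 2 ^ (n - 3 - j)) / (ρ / 2 ^ (n - 3 - j))))
              * (ρ / 2 ^ n) := by
          intro j hj
          rw [Finset.mem_range] at hj
          rw [← pow_id (n := n) (j := j) (by omega) ρ]
          have e5 : (1 / 4 : ℝ) ^ j = (1 / 2) ^ j * (1 / 2) ^ j := by
            rw [← mul_pow]
            norm_num
          have e6 : (1 / 2 : ℝ) ^ j * 2 ^ (j + 3) = 8 := by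
            rw [pow_add, ← mul_assoc, ← mul_pow]
            norm_num
          obtain ⟨r, hr⟩ : ∃ r, r = ρ / 2 ^ n := ⟨_, rfl⟩
          rw [← hr]
          have hr0 : r ≠ 0 := by rw [hr]; exact (hrn n).ne'
          have h20 : (2 : ℝ) ^ (j + 3) ≠ 0 := by positivity
          have e7 : 8 * ((1 / 2 : ℝ) ^ j * (I (2 ^ (j + 3) * r) / (2 ^ (j + 3) * r))) * r
              = (1 / 2 : ℝ) ^ j * I (2 ^ (j + 3) * r) * (8 / 2 ^ (j + 3)) := by
            field_simp
          rw [e7, e5, ← e6]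
          field_simp
        rw [Finset.sum_congr rfl h2, ← Finset.sum_mul, ← Finset.mul_sum] at h1
        rw [div_le_iff₀ (hrn n)]
        have h3 : C' ≤ B / 2 := by
          rw [hBd]
          have : 0 ≤ 64 / ρ * E0 := by positivity
          linarith
        have h4 := mul_le_mul_of_nonneg_right h3 (hrn n).le
        linarith)
    intro n
    have h1 := hrec n
    have h2 : I (ρ / 2 ^ n) / (ρ / 2 ^ n) ≤ B := h1
    rw [div_le_iff₀ (hrn n)] at h2
    rw [hI] at h2
    exact h2
  refine ⟨2 * B, ρ, by positivity, hρ, fun t ht x r hr => ?_⟩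
  obtain ⟨n, hn1, hn2⟩ := exists_nat_pow_near_of_lt_one (x := r / ρ) (y := 1 / 2)
    (div_pos hr.1 hρ) ((div_le_one hρ).2 hr.2) (by norm_num) (by norm_num)
  have h1 : r ≤ ρ / 2 ^ n := by
    rw [div_le_iff₀ hρ] at hn2
    have e : (1 / 2 : ℝ) ^ n * ρ = ρ / 2 ^ n := by
      rw [one_div, inv_pow]
      ring
    linarith
  have h2 : ρ / 2 ^ n ≤ 2 * r := by
    rw [lt_div_iff₀ hρ] at hn1
    have e : (1 / 2 : ℝ) ^ (n + 1) * ρ = ρ / 2 ^ n / 2 := by
      rw [one_div, inv_pow, pow_succ]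
      ring
    linarith
  have hrn : 0 < ρ / 2 ^ n := by positivity
  have hrle : ρ / 2 ^ n ≤ ρ := div_le_self hρ.le (one_le_pow₀ (by norm_num))
  have h3 : (ρ / 2 ^ n) ^ 2 ≤ ρ ^ 2 := pow_le_pow_left₀ hrn.le hrle 2
  have h4 : r ^ 2 ≤ (ρ / 2 ^ n) ^ 2 := pow_le_pow_left₀ hr.1.le h1 2
  have hsub : Icc (t - (ρ / 2 ^ n) ^ 2) t ⊆ Ioo 0 T := fun τ hτ =>
    ⟨by linarith [hτ.1, ht.1], hτ.2.trans_lt ht.2⟩
  have h5 : ∫ τ in Ioo (t - r ^ 2) t, W221.NS.B2 x r (u τ)
      ≤ ∫ τ in Ioo (t - (ρ / 2 ^ n) ^ 2) t, W221.NS.B2 x (ρ / 2 ^ n) (u τ) := by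
    calc ∫ τ in Ioo (t - r ^ 2) t, W221.NS.B2 x r (u τ)
        ≤ ∫ τ in Ioo (t - r ^ 2) t, W221.NS.B2 x (ρ / 2 ^ n) (u τ) := by
          have hss : Ioo (t - r ^ 2) t ⊆ Icc (t - (ρ / 2 ^ n) ^ 2) t :=
            (Ioo_subset_Ioo_left (by linarith)).trans Ioo_subset_Icc_self
          refine setIntegral_mono_on (((hB2c x _).mono hsub).integrableOn_Icc.mono_set hss)
            (((hB2c x _).mono hsub).integrableOn_Icc.mono_set hss) measurableSet_Ioo fun τ hτ => ?_
          have hτI := hsub (hss hτ)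
          unfold W221.NS.B2
          exact setIntegral_mono_set
            (((gsq_cont fun i => hu.sp ⟨hτI.1.le, hτI.2⟩ i).continuousOn.integrableOn_compact
              (isCompact_closedBall x _)).mono_set ball_subset_closedBall)
            (Eventually.of_forall fun y => gsq_nn _ _) (ball_subset_ball h1).eventuallyLE
      _ ≤ _ := by
          refine setIntegral_mono_set
            (((hB2c x _).mono hsub).integrableOn_Icc.mono_set Ioo_subset_Icc_self)
            (Eventually.of_forall fun τ => B2_nn _ _ _) (Ioo_subset_Ioo_left ?_).eventuallyLE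
          linarith
  have h6 := key t ht x n
  have h7 : B * (ρ / 2 ^ n) ≤ B * (2 * r) := mul_le_mul_of_nonneg_left h2 hBn
  linarith

end Pool.Agent.Q85.CC
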