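import Pool.Agent.Q85.CC.Tetra
import Pool.Agent.W930.MD.Scale

/-!
Project CC: general viscosity; the two forms of the theorem.
-/

set_option autoImplicit false

open MeasureTheory Set Metric Filter Topology
open scoped ContDiff
open H459R3.NS Pool.Agent.W268.NS Pool.Agent.Q67.VD
open Pool.Agent.Q199.VD

namespace Pool.Agent.Q85.CC

lemma vort_smul (c : ℝ) {v : V → V} (hv : ∀ i, SP (fun y => v y i)) (x : V) :
    vort (fun y => c • v y) x = c • vort v x := by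
  have h1 : ∀ i j, gradM (fun y => c • v y) x i j = c * gradM v x i j := by
    intro i j
    show pd i (fun y => c * v y j) x = c * pd i (fun y => v y j) x
    unfold pd
    rw [fderiv_const_mul ((hv j).smooth.differentiable (by norm_num) x)]
    rfl
  funext k
  simp only [vort, Pi.smul_apply, smul_eq_mul]
  fin_cases k
  · show gradM (fun y => c • v y) x 1 2 - gradM (fun y => c • v y) x 2 1
      = c * (gradM v x 1 2 - gradM v x 2 1)
    rw [h1, h1]
    ring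
  · show gradM (fun y => c • v y) x 2 0 - gradM (fun y => c • v y) x 0 2
      = c * (gradM v x 2 0 - gradM v x 0 2)
    rw [h1, h1]
    ring
  · show gradM (fun y => c • v y) x 0 1 - gradM (fun y => c • v y) x 1 0
      = c * (gradM v x 0 1 - gradM v x 1 0)
    rw [h1, h1]
    ring

lemma om_smul {c : ℝ} (hc : 0 ≤ c) {v : V → V} (hv : ∀ i, SP (fun y => v y i)) (x : V) :
    om (fun y => c • v y) x = c * om v x := by
  unfold om len
  rw [vort_smul c hv, smul_dotProduct, dotProduct_smul, smul_eq_mul, smul_eq_mul, ← mul_assoc,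
    Real.sqrt_mul (by positivity), Real.sqrt_mul_self hc]

/-- From the condition on the large vorticities to the cone with remainder. -/
lemma cone_of_half {v : V → V} {κ M R : ℝ} (hκ1 : κ ≤ 1) {x e : V} (he : e ⬝ᵥ e = 1)
    (h : ∀ y, ‖y - x‖ ≤ R → M < om v y → κ * om v y ≤ e ⬝ᵥ vort v y) (hM : 0 ≤ M) :
    Cone κ (2 * M) R e x v := by
  refine ⟨he, fun y hy => ?_⟩
  by_cases hy1 : M < om v y
  · linarith [h y hy hy1]
  · have hyM : om v y ≤ M := not_lt.1 hy1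
    have h1 : |e ⬝ᵥ vort v y| ≤ len e * len (vort v y) := dot_le_len _ _
    have h2 : len e = 1 := by
      unfold len
      rw [he, Real.sqrt_one]
    rw [h2, one_mul] at h1
    have h3 : len (vort v y) = om v y := rfl
    rw [h3] at h1
    have h4 := (abs_le.1 h1).1
    have h5 : κ * om v y ≤ 1 * om v y := mul_le_mul_of_nonneg_right hκ1 (om_nonneg _ _)
    linarith

/-- The half-space condition excludes blow-up. -/
theorem half_nu (hH : StmHalf) {ν T : ℝ} {u : ℝ → V → V} {p : ℝ → V → ℝ} (hν : 0 < ν)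
    (h : IsSol ν T u p) {T₀ κ M R : ℝ} (hT₀ : T₀ < T) (hκ : 0 < κ) (hR : 0 < R)
    (hc : ∀ t ∈ Ico 0 T, T₀ < t → ∀ x, ∃ e : V, e ⬝ᵥ e = 1 ∧ ∀ y, ‖y - x‖ ≤ R →
      M < om (u t) y → κ * om (u t) y ≤ e ⬝ᵥ vort (u t) y) :
    ∃ B, ∀ t ∈ Ico 0 T, ∀ x, ‖u t x‖ ≤ B := by
  by_cases hT : 0 < T
  · obtain ⟨κ', hκ'd⟩ : ∃ κ', κ' = min κ 1 := ⟨_, rfl⟩
    have hκ' : 0 < κ' := by rw [hκ'd]; exact lt_min hκ one_pos
    have hκ'1 : κ' ≤ 1 := by rw [hκ'd]; exact min_le_right _ _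
    have hκ'κ : κ' ≤ κ := by rw [hκ'd]; exact min_le_left _ _
    obtain ⟨M', hM'd⟩ : ∃ M', M' = max M 0 := ⟨_, rfl⟩
    have hM' : 0 ≤ M' := by rw [hM'd]; exact le_max_right _ _
    have hM'M : M ≤ M' := by rw [hM'd]; exact le_max_left _ _
    have hsc := Pool.Agent.W930.MD.t_SCALE ν T u p hν hT h
    have hmem : ∀ t ∈ Ioo (ν * max T₀ 0) (ν * T), t / ν ∈ Ico 0 T ∧ T₀ < t / ν := by
      intro t ht
      have h1 : max T₀ 0 < t / ν := by
        rw [lt_div_iff₀ hν, mul_comm]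
        exact ht.1
      have h2 : t / ν < T := by
        rw [div_lt_iff₀ hν, mul_comm]
        exact ht.2
      exact ⟨⟨(le_max_right _ _).trans h1.le, h2⟩, (le_max_left _ _).trans_lt h1⟩
    obtain ⟨B, hB⟩ := hH (ν * T) _ _ (by positivity) hsc (ν * max T₀ 0) κ' (2 * (ν⁻¹ * M')) R
      (mul_nonneg hν.le (le_max_right _ _))
      (mul_lt_mul_of_pos_left (max_lt hT₀ hT) hν) hκ' (by positivity) hR (by
        intro t ht x
        obtain ⟨hI, hT0t⟩ := hmem t ht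
        obtain ⟨e, he, hce⟩ := hc _ hI hT0t x
        have hv : ∀ i, SP (fun y => u (t / ν) y i) := fun i => h.sp hI i
        refine ⟨e, cone_of_half hκ'1 he ?_ (by positivity)⟩
        intro y hy hMy
        rw [om_smul (inv_nonneg.2 hν.le) hv] at hMy ⊢
        rw [vort_smul ν⁻¹ hv, dotProduct_smul, smul_eq_mul]
        have hMy2 : M' < om (u (t / ν)) y := (mul_lt_mul_iff_right₀ (inv_pos.2 hν)).1 hMy
        have h1 := hce y hy (hM'M.trans_lt hMy2)
        have h2 : κ' * om (u (t / ν)) y ≤ e ⬝ᵥ vort (u (t / ν)) y :=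
          (mul_le_mul_of_nonneg_right hκ'κ (om_nonneg _ _)).trans h1
        calc κ' * (ν⁻¹ * om (u (t / ν)) y) = ν⁻¹ * (κ' * om (u (t / ν)) y) := by ring
          _ ≤ _ := mul_le_mul_of_nonneg_left h2 (inv_nonneg.2 hν.le))
    refine ⟨ν * B, fun t ht x => ?_⟩
    have h1 := hB (ν * t) ⟨mul_nonneg hν.le ht.1, mul_lt_mul_of_pos_left ht.2 hν⟩ x
    have h2 : ν * t / ν = t := by field_simp
    rw [h2, norm_smul, Real.norm_eq_abs, abs_of_pos (inv_pos.2 hν)] at h1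
    calc ‖u t x‖ = ν * (ν⁻¹ * ‖u t x‖) := by field_simp
      _ ≤ ν * B := mul_le_mul_of_nonneg_left h1 hν.le
  · exact ⟨0, fun t ht => absurd (ht.1.trans_lt ht.2) hT⟩

/-- If large vorticities at small distances make angles less than a fixed angle below
`arccos (-1/3)`, there is no blow-up. -/
theorem tetra_nu (hH : StmHalf) {ν T : ℝ} {u : ℝ → V → V} {p : ℝ → V → ℝ} (hν : 0 < ν)
    (h : IsSol ν T u p) {T₀ ε M R : ℝ} (hT₀ : T₀ < T) (hε : 0 < ε) (hR : 0 < R)
    (hc : ∀ t ∈ Ico 0 T, T₀ < t → ∀ x y, ‖x - y‖ ≤ R → M < om (u t) x → M < om (u t) y →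
      (ε - 1 / 3) * (om (u t) x * om (u t) y) ≤ vort (u t) x ⬝ᵥ vort (u t) y) :
    ∃ B, ∀ t ∈ Ico 0 T, ∀ x, ‖u t x‖ ≤ B := by
  obtain ⟨δ, hδd⟩ : ∃ δ, δ = min ε 1 := ⟨_, rfl⟩
  have hδ : 0 < δ := by rw [hδd]; exact lt_min hε one_pos
  have hδ1 : δ ≤ 1 := by rw [hδd]; exact min_le_right _ _
  have hδε : δ ≤ ε := by rw [hδd]; exact min_le_left _ _
  refine half_nu hH hν h (T₀ := T₀) (κ := δ / 2) (M := max M 0) (R := R / 2) hT₀ (by positivity)
    (by positivity) ?_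
  intro t ht hTt x
  obtain ⟨D, hD⟩ : ∃ D : Set V, D = {a | ∃ y, ‖y - x‖ ≤ R / 2 ∧ max M 0 < om (u t) y ∧
    a = (om (u t) y)⁻¹ • vort (u t) y} := ⟨_, rfl⟩
  have hpos : ∀ y, max M 0 < om (u t) y → 0 < om (u t) y := fun y hy =>
    (le_max_right _ _).trans_lt hy
  obtain ⟨e, he, hea⟩ := tetra hδ hδ1 (D := D) (by
    rw [hD]
    rintro a ⟨y, -, hy, rfl⟩
    have h0 := hpos y hy
    rw [smul_dotProduct, dotProduct_smul, ← om_sq, smul_eq_mul, smul_eq_mul]
    field_simp) (by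
    rw [hD]
    rintro a ⟨y, hy1, hy2, rfl⟩ b ⟨z, hz1, hz2, rfl⟩
    have hy0 := hpos y hy2
    have hz0 := hpos z hz2
    rw [smul_dotProduct, dotProduct_smul, smul_eq_mul, smul_eq_mul]
    have hyz : ‖y - z‖ ≤ R := by
      have e1 : y - z = (y - x) - (z - x) := by abel
      rw [e1]
      exact (norm_sub_le _ _).trans (by linarith)
    have h1 := hc t ht hTt y z hyz ((le_max_left _ _).trans_lt hy2) ((le_max_left _ _).trans_lt hz2)
    have h2 : (δ - 1 / 3) * (om (u t) y * om (u t) z) ≤ vort (u t) y ⬝ᵥ vort (u t) z :=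
      (mul_le_mul_of_nonneg_right (by linarith) (by positivity)).trans h1
    calc δ - 1 / 3 = (om (u t) y)⁻¹ * ((om (u t) z)⁻¹ *
          ((δ - 1 / 3) * (om (u t) y * om (u t) z))) := by field_simp
      _ ≤ _ := mul_le_mul_of_nonneg_left (mul_le_mul_of_nonneg_left h2 (inv_nonneg.2 hz0.le))
        (inv_nonneg.2 hy0.le))
  refine ⟨e, he, fun y hy hMy => ?_⟩
  have h0 := hpos y hMy
  have h1 := hea ((om (u t) y)⁻¹ • vort (u t) y) (by rw [hD]; exact ⟨y, hy, hMy, rfl⟩)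
  rw [dotProduct_smul, smul_eq_mul] at h1
  calc δ / 2 * om (u t) y ≤ ((om (u t) y)⁻¹ * (e ⬝ᵥ vort (u t) y)) * om (u t) y :=
        mul_le_mul_of_nonneg_right h1 h0.le
    _ = e ⬝ᵥ vort (u t) y := by field_simp

end Pool.Agent.Q85.CC
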