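import Pool.Agent.Q85.CC.Main
import Pool.Agent.Q85.CC.En
import Pool.Agent.Q151.CC.Pinch
import Pool.Agent.Q128.CC.Ana
import Pool.Agent.Q225.CC.LE
import Pool.Agent.Q225.CC.Bern
import Pool.Agent.Q225.CC.Vel
import Pool.Agent.Q81.CC.Near
import Pool.Agent.Q84.CC.Small
import Pool.Agent.Q16.CC.Flx
import Pool.Agent.Q26.CC.Fin
import Pool.Agent.Q67.VD.Dec3

/-!
Project CC: all the parts together.
-/

set_option autoImplicit false

open MeasureTheory Set Metric Filter Topology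
open H459R3.NS Pool.Agent.W268.NS Pool.Agent.Q67.VD

namespace Pool.Agent.Q85.CC

theorem stmHalf : StmHalf :=
  half Pool.Agent.Q84.CC.small (en (Pool.Agent.Q16.CC.flx Pool.Agent.Q225.CC.stmVel
    Pool.Agent.Q81.CC.near Pool.Agent.Q67.VD.stmDec) Pool.Agent.Q225.CC.stmLE
    Pool.Agent.Q225.CC.stmBern) Pool.Agent.Q225.CC.stmVel Pool.Agent.Q26.CC.good
    Pool.Agent.Q128.CC.ana Pool.Agent.Q151.CC.pinch

end Pool.Agent.Q85.CC
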