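import Pool.Agent.Q85.CC.All
import Pool.Agent.Q151.CC.Double
import Pool.Agent.Q129.VD3.L1

/-!
Project CC, part (C): the double cone condition for all the nonzero vorticities.
-/

set_option autoImplicit false

open MeasureTheory Set Metric Filter Topology
open scoped ContDiff
open H459R3.NS Pool.Agent.W268.NS Pool.Agent.Q67.VD
open Pool.Agent.Q199.VD hiding om_nonneg

namespace Pool.Agent.Q85.CC

lemma DCone.mono {κ κ' R R' : ℝ} {e x : V} {v : V → V} (h : DCone κ R e x v) (hκ : κ' ≤ κ)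
    (hR : R' ≤ R) : DCone κ' R' e x v :=
  ⟨h.1, fun y hy => (mul_le_mul_of_nonneg_right hκ (om_nonneg _ _)).trans (h.2 y (hy.trans hR))⟩

/-- The double cone condition excludes blow-up (viscosity one). -/
def StmDbl : Prop := ∀ (T : ℝ) (u : ℝ → V → V) (p : ℝ → V → ℝ), 0 < T → IsSol 1 T u p →
  ∀ T₀ κ R : ℝ, 0 ≤ T₀ → T₀ < T → 0 < κ → 0 < R →
    (∀ t ∈ Ioo T₀ T, ∀ x, ∃ e, DCone κ R e x (u t)) →
    ∃ B : ℝ, ∀ t ∈ Ico 0 T, ∀ x, ‖u t x‖ ≤ B

set_option maxHeartbeats 1600000 in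
theorem dbl (hSmall : StmSmall) (hEn : StmEn) (hVel : StmVel) (hGood : StmGood)
    (hAna : StmAna) (hPinch : StmPinchD) (hMorD : StmMorD) (hL1 : Pool.Agent.Q67.VD3.StmL1) :
    StmDbl := by
  obtain ⟨CL1, hCL1, hL1⟩ := hL1
  obtain ⟨cS, hcS, hSmall⟩ := hSmall
  obtain ⟨CV, hCV, hVel⟩ := hVel
  obtain ⟨cG, hcG, hGood⟩ := hGood
  intro T u p hT hu T₀ κ₀ R₀ hT₀ hT₀T hκ₀ hR₀ hcone₀
  by_contra hcon
  -- normalisation of the constants
  obtain ⟨κ, hκd⟩ : ∃ κ, κ = min κ₀ 1 := ⟨_, rfl⟩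
  have hκ : 0 < κ := by rw [hκd]; exact lt_min hκ₀ one_pos
  have hκ1 : κ ≤ 1 := by rw [hκd]; exact min_le_right _ _
  have hκκ : κ ≤ κ₀ := by rw [hκd]; exact min_le_left _ _
  obtain ⟨R, hRd⟩ : ∃ R, R = min R₀ (1 / 2) := ⟨_, rfl⟩
  have hR : 0 < R := by rw [hRd]; exact lt_min hR₀ (by norm_num)
  have hR12 : R ≤ 1 / 2 := by rw [hRd]; exact min_le_right _ _
  have hR1 : R ≤ 1 := by linarith
  have hRR : R ≤ R₀ := by rw [hRd]; exact min_le_left _ _
  have hcone : ∀ t ∈ Ioo T₀ T, ∀ x, ∃ e, DCone κ R e x (u t) := by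
    intro t ht x
    obtain ⟨e, he⟩ := hcone₀ t ht x
    exact ⟨e, he.mono hκκ hRR⟩
  have hIco : ∀ t ∈ Ioo T₀ T, t ∈ Ico 0 T := fun t ht => ⟨hT₀.trans ht.1.le, ht.2⟩
  -- the Morrey bound
  obtain ⟨E0, hE0⟩ : ∃ E0, E0 = energy (u 0) := ⟨_, rfl⟩
  have hE0n : 0 ≤ E0 := by rw [hE0]; exact H459R3.NS.energy_nonneg _
  obtain ⟨CM, cM, hCM, hcM, hcM1, hMorD⟩ := hMorD κ hκ hκ1
  obtain ⟨I, hI⟩ : ∃ I, I = (∫ x in cube, om (u 0) x) + CL1 * energy (u 0) / 1 := ⟨_, rfl⟩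
  have hI0 : 0 ≤ I := by
    rw [hI]
    have h1 : 0 ≤ ∫ x in cube, om (u 0) x := integral_nonneg fun y => om_nonneg _ _
    have h2 : 0 ≤ energy (u 0) := H459R3.NS.energy_nonneg _
    positivity
  obtain ⟨K, hKd⟩ : ∃ K, K = CM * (I / R) := ⟨_, rfl⟩
  have hK : 0 ≤ K := by rw [hKd]; positivity
  have hen : ∀ t ∈ Ioo T₀ T, energy (u t) ≤ E0 := fun t ht => by
    rw [hE0]; exact hu.energy_le one_pos (hIco t ht)
  obtain ⟨P, hP⟩ : ∃ P, P = cM * R := ⟨_, rfl⟩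
  have hP0 : 0 < P := by rw [hP]; positivity
  have hP1 : P ≤ 1 := by rw [hP]; nlinarith
  have hMor : ∀ t ∈ Ioo T₀ T, Mor K P (om (u t)) := by
    intro t ht x r hr hrR
    obtain ⟨e, he⟩ := hcone t ht x
    have h1 := hMorD (u t) x e R ⟨fun i => hu.sp (hIco t ht) i, hu.divfree t (hIco t ht)⟩ hR hR1
      he r hr (by rw [← hP]; exact hrR)
    have h2 : ∫ y in closedBall x r, |om (u t) y| = ∫ y in closedBall x r, om (u t) y := by
      congr 1
      funext y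
      exact abs_of_nonneg (om_nonneg _ _)
    have h3 : ∫ y in closedBall x R, om (u t) y ≤ ∫ y in cube, om (u t) y :=
      ball_le (om_per fun i => hu.sp (hIco t ht) i) (om_cont fun i => hu.sp (hIco t ht) i)
        (fun y => om_nonneg _ _) x hR12
    have h4 := hL1 1 T u p one_pos hu 0 t le_rfl (hIco t ht).1 ht.2
    rw [← hI] at h4
    rw [h2]
    refine h1.trans ?_
    have h5 : CM * (r / R) * ∫ y in closedBall x R, om (u t) y ≤ CM * (r / R) * I :=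
      mul_le_mul_of_nonneg_left (h3.trans h4) (by positivity)
    refine h5.trans (le_of_eq ?_)
    rw [hKd]
    ring
  -- the dissipation
  obtain ⟨C₁, r₁, hC₁, hr₁, hdis⟩ := hEn T u p hT hu T₀ K P hT₀ hT₀T hK hP0 hMor
  -- the mollified velocity
  obtain ⟨KV, hKVd⟩ : ∃ KV, KV = CV * (K + √(E0 / P ^ 3)) := ⟨_, rfl⟩
  have hKV : 0 ≤ KV := by rw [hKVd]; positivity
  have hmol : ∀ τ ∈ Ioo T₀ T, ∀ y, ∀ ρ, 0 < ρ → ρ ≤ P → ‖W221.NS.mol ρ u τ y‖ ≤ KV / ρ := by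
    intro τ hτ y ρ hρ hρR
    rw [pi_norm_le_iff_of_nonneg (by positivity)]
    intro i
    have h1 := (hVel (u τ) K P ρ (sdf_sol hu (hIco τ hτ)) hK hρ hρR (by linarith)
      (hMor τ hτ) y i).2
    rw [Real.norm_eq_abs]
    refine h1.trans ?_
    rw [hKVd, mul_div_assoc]
    refine mul_le_mul_of_nonneg_left ?_ hCV.le
    rw [add_div]
    have h2 : √(energy (u τ) / P ^ 3) ≤ √(E0 / P ^ 3) :=
      Real.sqrt_le_sqrt (div_le_div_of_nonneg_right (hen τ hτ) (by positivity))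
    have h3 : √(E0 / P ^ 3) ≤ √(E0 / P ^ 3) / ρ := by
      rw [le_div_iff₀ hρ]
      exact mul_le_of_le_one_right (Real.sqrt_nonneg _) (by linarith)
    linarith
  -- the constants of the parts
  obtain ⟨σ, lam, cP, hσ, hσ8, hlam, hlam2, hcP, hcP1, hPin⟩ := hPinch κ hκ hκ1
  obtain ⟨h, L, hh, hh1, hL, hGood⟩ := hGood KV C₁ σ hKV hC₁ hσ (by linarith)
  obtain ⟨r₀, hr₀, hGood⟩ := hGood T u p hT hu
  obtain ⟨η, hηd⟩ : ∃ η, η = min cS 1 := ⟨_, rfl⟩
  have hη : 0 < η := by rw [hηd]; exact lt_min hcS one_pos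
  have hη1 : η ≤ 1 := by rw [hηd]; exact min_le_right _ _
  have hηc : η ≤ cS := by rw [hηd]; exact min_le_left _ _
  obtain ⟨τ, w₀, hτ, hw₀, hw₀h, hAna⟩ := hAna cG h (cP * η / 8) hcG hh hh1 (by positivity)
  obtain ⟨τ', hτ'd⟩ : ∃ τ', τ' = min τ 1 := ⟨_, rfl⟩
  have hτ' : 0 < τ' := by rw [hτ'd]; exact lt_min hτ one_pos
  have hτ'1 : τ' ≤ 1 := by rw [hτ'd]; exact min_le_right _ _
  have hτ'τ : τ' ≤ τ := by rw [hτ'd]; exact min_le_left _ _
  obtain ⟨N, hPin⟩ := hPin K η τ' hK hη hη1 hτ' hτ'1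
  -- the large scale
  obtain ⟨S, hSd⟩ : ∃ S, S = min P (min r₀ (min (r₁ / L) ((T - T₀) / (2 * L)))) := ⟨_, rfl⟩
  have hL0 : 0 < L := by linarith
  have hS : 0 < S := by
    rw [hSd]
    refine lt_min hP0 (lt_min hr₀ (lt_min (by positivity) ?_))
    exact div_pos (by linarith) (by positivity)
  have hS1 : S ≤ P := by rw [hSd]; exact min_le_left _ _
  have hS2 : S ≤ r₀ := by rw [hSd]; exact (min_le_right _ _).trans (min_le_left _ _)
  have hS3 : S ≤ r₁ / L := by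
    rw [hSd]; exact (min_le_right _ _).trans ((min_le_right _ _).trans (min_le_left _ _))
  have hS4 : S ≤ (T - T₀) / (2 * L) := by
    rw [hSd]
    exact (min_le_right _ _).trans ((min_le_right _ _).trans (min_le_right _ _))
  have hSle1 : S ≤ 1 := by linarith
  -- concentration
  have hex : ∃ t, max ((T₀ + T) / 2) (T / 2) < t ∧ t < T ∧ ∃ x ρ, 0 < ρ ∧ ρ ≤ lam ^ N * S ∧
      η * ρ ≤ ∫ y in closedBall x ρ, om (u t) y := by
    by_contra hno
    push Not at hno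
    refine hcon (hSmall T u p hT hu (max ((T₀ + T) / 2) (T / 2)) (lam ^ N * S)
      (le_max_of_le_right (by linarith)) (max_lt (by linarith) (by linarith)) (by positivity) ?_)
    intro t ht x r hr hrS
    have h1 := hno t ht.1 ht.2 x r hr hrS
    have h2 : ∫ y in closedBall x r, |om (u t) y| = ∫ y in closedBall x r, om (u t) y := by
      congr 1
      funext y
      exact abs_of_nonneg (om_nonneg _ _)
    rw [h2]
    exact h1.le.trans (mul_le_mul_of_nonneg_right hηc hr.le)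
  obtain ⟨t, ht1, ht2, x₀, ρ, hρ, hρS, hconc₀⟩ := hex
  have htT : t ∈ Ioo T₀ T := ⟨by linarith [le_max_left ((T₀ + T) / 2) (T / 2)], ht2⟩
  have hsp := fun i => hu.sp (hIco t htT) i
  -- shift to the cell
  obtain ⟨m, hm⟩ := mem_cube_shift x₀
  obtain ⟨x, hxd⟩ : ∃ x : V, x = x₀ + fun i => (m i : ℝ) := ⟨_, rfl⟩
  rw [← hxd] at hm
  have hconc : η * ρ ≤ ∫ y in closedBall x ρ, om (u t) y := by
    rw [hxd, int_shift (om_per hsp)]
    exact hconc₀
  -- the cone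
  obtain ⟨e, hcn⟩ := hcone t htT x
  replace hcn := hcn.mono (κ' := κ) (R' := S) le_rfl (by rw [hP] at hS1; nlinarith)
  have habs : ∀ s, ∫ y in closedBall x s, |om (u t) y| = ∫ y in closedBall x s, om (u t) y := by
    intro s
    congr 1
    funext y
    exact abs_of_nonneg (om_nonneg _ _)
  obtain ⟨k, hk, hpin⟩ := hPin (u t) x e S ρ (sdf_sol hu (hIco t htT)) hS
    hSle1 hcn (fun s hs hsS => by rw [← habs]; exact hMor t htT x s hs (hsS.trans hS1))
    hρ hρS hconc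
  -- the scale
  obtain ⟨r, hrd⟩ : ∃ r, r = lam ^ k * (S / 4) := ⟨_, rfl⟩
  rw [← hrd] at hpin
  have hr : 0 < r := by rw [hrd]; positivity
  have hrS : r ≤ S := by
    rw [hrd]
    have h1 : lam ^ k ≤ 1 := pow_le_one₀ hlam.le (by linarith)
    have h2 : lam ^ k * (S / 4) ≤ 1 * (S / 4) := mul_le_mul_of_nonneg_right h1 (by positivity)
    linarith
  have hr1 : r ≤ 1 := hrS.trans hSle1
  have hLr : L * r ≤ r₁ := by
    rw [le_div_iff₀ hL0] at hS3
    have h2 : L * r ≤ L * S := mul_le_mul_of_nonneg_left hrS hL0.le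
    linarith
  have hLr2 : L * r ^ 2 ≤ (T - T₀) / 2 := by
    rw [le_div_iff₀ (by positivity)] at hS4
    have h1 : r ^ 2 ≤ r := pow_le_of_le_one hr.le hr1 two_ne_zero
    have h2 : L * r ^ 2 ≤ L * S := mul_le_mul_of_nonneg_left (h1.trans hrS) hL0.le
    linarith
  have ht3 : (T₀ + T) / 2 < t := (le_max_left _ _).trans_lt ht1
  have ht4 : T / 2 ≤ t := ((le_max_right _ _).trans_lt ht1).le
  obtain ⟨s, hs, hgd⟩ := hGood t r x e hr (hrS.trans hS2) ht4 ht2 hm hcn.1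
    (fun τ hτ y ρ hρ => hmol τ ⟨by linarith [hτ.1], hτ.2.trans ht2⟩ y ρ hρ.1
      (hρ.2.trans (hrS.trans hS1)))
    (fun y ρ hρ => hdis t ⟨ht3, ht2⟩ y ρ ⟨hρ.1, hρ.2.trans hLr⟩)
  -- the slab
  obtain ⟨w, hwd⟩ : ∃ w, w = min (w₀ * r) (σ * r / 4) := ⟨_, rfl⟩
  have hw : 0 < w := by rw [hwd]; exact lt_min (by positivity) (by positivity)
  have hw1 : w ≤ w₀ * r := by rw [hwd]; exact min_le_left _ _
  have hw2 : w ≤ σ * r / 4 := by rw [hwd]; exact min_le_right _ _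
  have hwr : w ≤ r / 4 := by
    have h2 : σ * r ≤ 1 / 8 * r := mul_le_mul_of_nonneg_right hσ8 hr.le
    linarith
  obtain ⟨hann, hflux⟩ := hpin s w hs.1 hs.2 hw hw2
  have hsm := hAna (u t) x e r s (fun i => (hsp i).smooth) hcn.1 hr
    (fun y hy hyr => hgd y hy (hyr.trans (by
      exact pow_le_pow_left₀ (by positivity) (by linarith) 2))) w hw hw1
    (hann.trans (mul_le_mul_of_nonneg_right hτ'τ hw.le))
  have hvol := vol_disc e x s w (r / 4) hcn.1 hw.le hwr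
  have hfin : volume (Disc e x s w (r / 4)) < ⊤ := hvol.trans_lt ENNReal.ofReal_lt_top
  have hint : ∫ y in Disc e x s w (r / 4), om (u t) y
      ≤ cP * η / 8 / r ^ 2 * (volume (Disc e x s w (r / 4))).toReal := by
    have h1 := norm_setIntegral_le_of_norm_le_const (μ := volume) (s := Disc e x s w (r / 4))
      (f := om (u t)) (C := cP * η / 8 / r ^ 2) hfin
      (fun y hy => by rw [Real.norm_eq_abs, abs_of_nonneg (om_nonneg _ _)]; exact hsm y hy)
    exact (Real.le_norm_self _).trans h1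
  have hvr : (volume (Disc e x s w (r / 4))).toReal ≤ 64 * (r / 4) ^ 2 * w :=
    ENNReal.toReal_le_of_le_ofReal (by positivity) hvol
  have hfinal : ∫ y in Disc e x s w (r / 4), om (u t) y ≤ cP * η * w / 2 := by
    refine hint.trans ((mul_le_mul_of_nonneg_left hvr (by positivity)).trans (le_of_eq ?_))
    field_simp
    ring
  have hpos : 0 < cP * η * w := by positivity
  linarith


theorem stmDbl : StmDbl :=
  dbl Pool.Agent.Q84.CC.small (en (Pool.Agent.Q16.CC.flx Pool.Agent.Q225.CC.stmVel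
    Pool.Agent.Q81.CC.near Pool.Agent.Q67.VD.stmDec) Pool.Agent.Q225.CC.stmLE
    Pool.Agent.Q225.CC.stmBern) Pool.Agent.Q225.CC.stmVel Pool.Agent.Q26.CC.good
    Pool.Agent.Q128.CC.ana Pool.Agent.Q151.CC.pinchD Pool.Agent.Q151.CC.morD
    Pool.Agent.Q129.VD3.t_L1

end Pool.Agent.Q85.CC
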