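import Pool.Agent.Q85.CC.Defs

/-!
Project CC: second part of the statements.
-/

set_option autoImplicit false

open MeasureTheory Set Metric
open scoped ContDiff
open H459R3.NS Pool.Agent.W268.NS Pool.Agent.Q67.VD

namespace Pool.Agent.Q85.CC

/-- The terms of the local energy identity at one time, at the scale `r = ρ / 2ⁿ`; `q` is the
Bernoulli pressure, `φ` the cut-off function. -/
def StmFlx : Prop := ∀ K H ρ δ D : ℝ, 0 ≤ K → 0 ≤ H → 0 < ρ → ρ ≤ 1 → 0 < δ → 0 < D →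
  ∃ C : ℝ, 0 ≤ C ∧ ∀ (v : V → V) (q : V → ℝ) (m Q : ℝ), SDF v → SP q →
    (∀ i, SP (fun y => crossProduct (v y) (vort v y) i)) →
    (∀ x, lap q x = ∑ i, pd i (fun y => crossProduct (v y) (vort v y) i) x) →
    Mor K ρ (om v) → √(energy v / ρ ^ 3) ≤ H → ∫ y in cube, |q y - m| ≤ Q →
    ∀ n : ℕ, 6 ≤ n → ∀ (x : V) (φ : V → ℝ), ContDiff ℝ ∞ φ →
      (∀ y, φ y ≠ 0 → ‖y - x‖ ≤ 2 * (ρ / 2 ^ n)) → (∀ y i, |pd i φ y| ≤ D / (ρ / 2 ^ n)) →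
      (∀ y, |lap φ y| ≤ D / (ρ / 2 ^ n) ^ 2) →
        |∫ y, W221.NS.nsq v y * lap φ y| + |2 * ∫ y, q y * W221.NS.adv v φ y|
          + (∫ y in closedBall x (2 * (ρ / 2 ^ n)), W221.NS.nsq v y) / (ρ / 2 ^ n) ^ 2
          ≤ δ * ∑ j ∈ Finset.range (n - 2),
              (1 / 4 : ℝ) ^ j * W221.NS.B2 x (2 ^ (j + 3) * (ρ / 2 ^ n)) v
            + C * (1 / (ρ / 2 ^ n) + (ρ / 2 ^ n) ^ 2 * Q)

end Pool.Agent.Q85.CC
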