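import Pool.Agent.Q85.CC.Defs
import Pool.Agent.Q199.VD.Flux

/-!
Project CC: the Morrey bound for the vorticity from the half-space condition (adapted from the proof
of `Pool.Agent.Q199.VD.flux` by helper199).
-/

set_option autoImplicit false

open MeasureTheory Set Metric Filter Topology
open scoped ENNReal ContDiff
open H459R3.NS Pool.Agent.W268.NS Pool.Agent.Q67.VD
open Pool.Agent.Q199.VD 

namespace Pool.Agent.Q85.CC

theorem flux2 : ∃ C : ℝ, 0 < C ∧ ∀ (v : V → V) (M R κ : ℝ) (x e : V),
    (∀ i, SP (fun y => v y i)) → (∀ x, ∑ i, pd i (fun y => v y i) x = 0) → 0 ≤ M → 0 < R → R ≤ 1 →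
    0 < κ → κ ≤ 1 → Cone κ (2 * M) (R / 2) e x v → ∀ r, 0 < r → r ≤ R / 8 →
    ∫ y in closedBall x r, |om v y| ≤ C / κ ^ 2 * (√(energy v / R) + M * R ^ 2) * r := by
  obtain ⟨D, hD, hcut⟩ := exists_cut
  refine ⟨480 * D * (24 * D + 3) + 8, by positivity, ?_⟩
  intro v M R κ x e hv hdiv hM hR hR1 hκ hκ1 hcone r hr hr8
  obtain ⟨hee, hcone⟩ := hcone
  set E := energy v with hE
  have hE0 : 0 ≤ E := energy_nonneg v
  set w := vort v with hw
  have hom : ∀ y, |om v y| = om v y := fun y => abs_of_nonneg (om_nonneg v y)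
  simp_rw [hom]
  have omI : ∀ x ρ, IntegrableOn (om v) (closedBall x ρ) := fun x ρ =>
    (om_cont hv).continuousOn.integrableOn_compact (isCompact_closedBall _ _)
  have hκ2 : 0 < κ ^ 2 := by positivity
  have hsq : 0 ≤ √(E / R) := Real.sqrt_nonneg _
  have hle : len e = 1 := by rw [len, hee, Real.sqrt_one]
  have hei : ∀ i, |e i| ≤ 1 := fun i => (abs_le_len e i).trans hle.le
  have hlow : ∀ y ∈ closedBall x (R / 2), κ * om v y ≤ e ⬝ᵥ w y + 2 * M := by
    intro y hy
    exact hcone y (by rw [← dist_eq_norm]; exact mem_closedBall.1 hy)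
  have hnn : ∀ y ∈ closedBall x (R / 2), 0 ≤ e ⬝ᵥ w y + 2 * M := fun y hy =>
    (mul_nonneg hκ.le (om_nonneg v y)).trans (hlow y hy)
  have ewc : Continuous (fun y => e ⬝ᵥ w y) := by
    simp only [dotProduct]
    exact continuous_finsetSum _ fun i _ => continuous_const.mul (sp_vort hv i).cont
  -- first step
  have step1 : κ * ∫ y in closedBall x (R / 4), om v y
      ≤ 24 * D * (√R * √E) + 2 * M * R ^ 3 := by
    obtain ⟨χ, hχ, hs, hχ0, hχ1, hone, hzero, hpd, hpd0⟩ := hcut x (R / 4) (by positivity)
    rw [show 2 * (R / 4) = R / 2 by ring] at hzero hpd0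
    have hint : Integrable (fun y => χ y * (e ⬝ᵥ w y + 2 * M)) :=
      (hχ.continuous.mul (ewc.add continuous_const)).integrable_of_hasCompactSupport hs.mul_right
    have hnn' : ∀ y, 0 ≤ χ y * (e ⬝ᵥ w y + 2 * M) := fun y => by
      by_cases hy : y ∈ closedBall x (R / 2)
      · exact mul_nonneg (hχ0 y) (hnn y hy)
      · rw [hzero y hy, zero_mul]
    have h1 : κ * ∫ y in closedBall x (R / 4), om v y
        ≤ ∫ y in closedBall x (R / 4), χ y * (e ⬝ᵥ w y + 2 * M) := by
      rw [← integral_const_mul]
      refine setIntegral_mono_on ((omI x _).const_mul κ) hint.integrableOn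
        measurableSet_closedBall fun y hy => ?_
      rw [hone y hy, one_mul]
      exact hlow y (closedBall_subset_closedBall (by linarith) hy)
    have h2 : ∫ y in closedBall x (R / 4), χ y * (e ⬝ᵥ w y + 2 * M)
        ≤ ∫ y, χ y * (e ⬝ᵥ w y + 2 * M) :=
      setIntegral_le_integral hint (Eventually.of_forall hnn')
    have hχi : Integrable χ := hχ.continuous.integrable_of_hasCompactSupport hs
    have hwi : ∀ i, Integrable (fun y => χ y * w y i) := fun i =>
      (hχ.continuous.mul (sp_vort hv i).cont).integrable_of_hasCompactSupport hs.mul_right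
    have h3 : ∫ y, χ y * (e ⬝ᵥ w y + 2 * M)
        = (∑ i, e i * ∫ y, χ y * w y i) + 2 * M * ∫ y, χ y := by
      have e1 : ∀ y, χ y * (e ⬝ᵥ w y + 2 * M)
          = (∑ i, e i * (χ y * w y i)) + 2 * M * χ y := fun y => by
        simp only [dotProduct]
        rw [mul_add, Finset.mul_sum]
        congr 1
        · exact Finset.sum_congr rfl fun i _ => by ring
        · ring
      simp_rw [e1]
      rw [integral_add (integrable_finsetSum _ fun i _ => (hwi i).const_mul _)
        (hχi.const_mul _), integral_finsetSum _ fun i _ => (hwi i).const_mul _,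
        integral_const_mul]
      simp_rw [integral_const_mul]
    have h4 : ∫ y, χ y ≤ R ^ 3 := by
      have e1 : ∫ y, χ y = ∫ y in closedBall x (R / 2), χ y :=
        (setIntegral_eq_integral_of_forall_compl_eq_zero fun y hy => hzero y hy).symm
      rw [e1]
      have h5 : ∫ y in closedBall x (R / 2), χ y ≤ ∫ _ in closedBall x (R / 2), (1 : ℝ) :=
        setIntegral_mono_on hχi.integrableOn
          (continuous_const.continuousOn.integrableOn_compact (isCompact_closedBall _ _))
          measurableSet_closedBall fun y _ => hχ1 y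
      rw [setIntegral_const, vol_ball x (by positivity), smul_eq_mul, mul_one,
        show 2 * (R / 2) = R by ring] at h5
      exact h5
    have h6 : ∀ i, e i * ∫ y, χ y * w y i ≤ 8 * D * (√R * √E) := by
      intro i
      have h7 := curl_bound hv hR hR1 hχ hs (B := D / (R / 4)) (by positivity) hpd hpd0 i
      have h8 : 2 * (D / (R / 4)) * √(R ^ 3 * energy v) = 8 * D * (√R * √E) := by
        have e1 : √(R ^ 3 * energy v) = R * (√R * √E) := by
          rw [show R ^ 3 * energy v = R ^ 2 * (R * E) by rw [hE]; ring,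
            Real.sqrt_mul (by positivity), Real.sqrt_sq hR.le, Real.sqrt_mul hR.le]
        rw [e1]
        field_simp
        ring
      rw [h8] at h7
      calc e i * ∫ y, χ y * w y i ≤ |e i * ∫ y, χ y * w y i| := le_abs_self _
        _ = |e i| * |∫ y, χ y * w y i| := abs_mul _ _
        _ ≤ 1 * (8 * D * (√R * √E)) := mul_le_mul (hei i) h7 (abs_nonneg _) zero_le_one
        _ = _ := one_mul _
    have h9 : ∑ i, e i * ∫ y, χ y * w y i ≤ 24 * D * (√R * √E) := by
      rw [Fin.sum_univ_three]
      linarith [h6 0, h6 1, h6 2]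
    have h10 : 2 * M * ∫ y, χ y ≤ 2 * M * R ^ 3 := mul_le_mul_of_nonneg_left h4 (by positivity)
    linarith
  -- second step
  have step2 : κ / 10 * ∫ y in closedBall x r, om v y
      ≤ 48 * D * r / R * ((∫ y in closedBall x (R / 4), om v y) + M * R ^ 3 / 4) := by
    obtain ⟨χ, hχ, hs, hχ0, hχ1, hone, hzero, hpd, hpd0⟩ := hcut x (R / 8) (by positivity)
    rw [show 2 * (R / 8) = R / 4 by ring] at hzero hpd0
    have hzs : ∀ i, SP (fun y => w y i + 2 * M * e i) := fun i =>
      ⟨(sp_vort hv i).smooth.add contDiff_const, fun j y =>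
        congrArg (fun s : ℝ => s + 2 * M * e i) ((sp_vort hv i).per j y)⟩
    have hzd : ∀ y, ∑ i, pd i (fun y => w y i + 2 * M * e i) y = 0 := fun y => by
      rw [← div_vort hv y]
      refine Finset.sum_congr rfl fun i _ => ?_
      unfold pd
      rw [fderiv_add_const]
    have hid := flux_id hzs hzd hχ hs e x hr
    have hez : ∀ y, ∑ i, e i * (w y i + 2 * M * e i) = e ⬝ᵥ w y + 2 * M := fun y => by
      have e1 : ∑ i, e i * (w y i + 2 * M * e i) = e ⬝ᵥ w y + 2 * M * (e ⬝ᵥ e) := by
        simp only [dotProduct, Fin.sum_univ_three]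
        ring
      rw [e1, hee, mul_one]
    simp_rw [hez] at hid
    set s : V → ℝ := fun y => (e ⬝ᵥ (y - x)) / r with hsdef
    have hscont : Continuous s := by
      have h1 : Continuous (fun y : V => ∑ i, e i * (y i - x i)) :=
        continuous_finsetSum _ fun i _ => continuous_const.mul
          ((continuous_apply i).sub continuous_const)
      exact h1.div_const r
    have hden : ∀ y, 0 < 1 + s y ^ 2 := fun y => by positivity
    have hq : Continuous (fun y => χ y * (1 + s y ^ 2)⁻¹ * (e ⬝ᵥ w y + 2 * M)) :=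
      (hχ.continuous.mul ((continuous_const.add (hscont.pow 2)).inv₀ fun y =>
        (hden y).ne')).mul (ewc.add continuous_const)
    have hqi : Integrable (fun y => χ y * (1 + s y ^ 2)⁻¹ * (e ⬝ᵥ w y + 2 * M)) :=
      hq.integrable_of_hasCompactSupport hs.mul_right.mul_right
    have hqn : ∀ y, 0 ≤ χ y * (1 + s y ^ 2)⁻¹ * (e ⬝ᵥ w y + 2 * M) := fun y => by
      by_cases hy : y ∈ closedBall x (R / 4)
      · exact mul_nonneg (mul_nonneg (hχ0 y) (inv_nonneg.2 (hden y).le))
          (hnn y (closedBall_subset_closedBall (by linarith) hy))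
      · rw [hzero y hy, zero_mul, zero_mul]
    have hsle : ∀ y ∈ closedBall x r, |s y| ≤ 3 := by
      intro y hy
      have h1 : ∀ i, |y i - x i| ≤ r := fun i => by
        have := (dist_pi_le_iff hr.le).1 (mem_closedBall.1 hy) i
        rwa [Real.dist_eq] at this
      have h2 : ∀ i, |e i * (y i - x i)| ≤ r := fun i => by
        rw [abs_mul]
        calc |e i| * |y i - x i| ≤ 1 * r := mul_le_mul (hei i) (h1 i) (abs_nonneg _) zero_le_one
          _ = r := one_mul r
      have h3 : |e ⬝ᵥ (y - x)| ≤ 3 * r := by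
        have e1 : e ⬝ᵥ (y - x) = e 0 * (y 0 - x 0) + e 1 * (y 1 - x 1) + e 2 * (y 2 - x 2) := by
          simp only [dotProduct, Fin.sum_univ_three, Pi.sub_apply]
        rw [e1]
        refine (abs_add_three _ _ _).trans ?_
        linarith [h2 0, h2 1, h2 2]
      show |(e ⬝ᵥ (y - x)) / r| ≤ 3
      rw [abs_div, abs_of_pos hr, div_le_iff₀ hr]
      exact h3
    have h1 : κ / 10 * ∫ y in closedBall x r, om v y
        ≤ ∫ y in closedBall x r, χ y * (1 + s y ^ 2)⁻¹ * (e ⬝ᵥ w y + 2 * M) := by
      rw [← integral_const_mul]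
      refine setIntegral_mono_on ((omI x _).const_mul _) hqi.integrableOn
        measurableSet_closedBall fun y hy => ?_
      have hy2 : y ∈ closedBall x (R / 2) := closedBall_subset_closedBall (by linarith) hy
      rw [hone y (closedBall_subset_closedBall hr8 hy), one_mul]
      have h2 : (1 / 10 : ℝ) ≤ (1 + s y ^ 2)⁻¹ := by
        rw [one_div]
        refine inv_anti₀ (hden y) ?_
        have := sq_le_sq' (by linarith [(abs_le.1 (hsle y hy)).1]) (abs_le.1 (hsle y hy)).2
        linarith
      calc κ / 10 * om v y = 1 / 10 * (κ * om v y) := by ring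
        _ ≤ (1 + s y ^ 2)⁻¹ * (e ⬝ᵥ w y + 2 * M) :=
          mul_le_mul h2 (hlow y hy2) (mul_nonneg hκ.le (om_nonneg v y)) (inv_nonneg.2 (hden y).le)
    have h2 : ∫ y in closedBall x r, χ y * (1 + s y ^ 2)⁻¹ * (e ⬝ᵥ w y + 2 * M)
        ≤ ∫ y, χ y * (1 + s y ^ 2)⁻¹ * (e ⬝ᵥ w y + 2 * M) :=
      setIntegral_le_integral hqi (Eventually.of_forall hqn)
    have h3 : ∀ i, -∫ y, pd i χ y * (r * Real.arctan (s y) * (w y i + 2 * M * e i))
        ≤ 16 * D * r / R * ((∫ y in closedBall x (R / 4), om v y) + M * R ^ 3 / 4) := by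
      intro i
      have hfc : Continuous (fun y => r * Real.arctan (s y) * (w y i + 2 * M * e i)) :=
        (continuous_const.mul (Real.continuous_arctan.comp hscont)).mul (hzs i).cont
      have h4 := cut_bound (χ := χ) (x := x) (ρ := R / 4) (j := i) hfc (hpd i) (hpd0 i)
      have h5 : ∫ y in closedBall x (R / 4), |r * Real.arctan (s y) * (w y i + 2 * M * e i)|
          ≤ ∫ y in closedBall x (R / 4), (2 * r) * (om v y + 2 * M) := by
        refine setIntegral_mono_on
          (hfc.abs.continuousOn.integrableOn_compact (isCompact_closedBall _ _))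
          ((continuous_const.mul ((om_cont hv).add continuous_const)).continuousOn.integrableOn_compact
            (isCompact_closedBall _ _)) measurableSet_closedBall fun y _ => ?_
        rw [abs_mul, abs_mul, abs_of_pos hr]
        have h6 : |Real.arctan (s y)| ≤ 2 := by
          rw [abs_le]
          have hpi := Real.pi_lt_four
          have a1 := Real.neg_pi_div_two_lt_arctan (s y)
          have a2 := Real.arctan_lt_pi_div_two (s y)
          constructor <;> linarith
        have h7 : |w y i + 2 * M * e i| ≤ om v y + 2 * M := by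
          refine (abs_add_le _ _).trans (add_le_add (abs_le_len (w y) i) ?_)
          rw [abs_mul, abs_of_nonneg (by positivity : 0 ≤ 2 * M)]
          have := mul_le_mul_of_nonneg_left (hei i) (by positivity : 0 ≤ 2 * M)
          linarith
        calc r * |Real.arctan (s y)| * |w y i + 2 * M * e i|
            ≤ (r * 2) * (om v y + 2 * M) :=
              mul_le_mul (mul_le_mul_of_nonneg_left h6 hr.le) h7 (abs_nonneg _) (by positivity)
          _ = _ := by ring
      have h8 : ∫ y in closedBall x (R / 4), (2 * r) * (om v y + 2 * M)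
          = 2 * r * ((∫ y in closedBall x (R / 4), om v y) + M * R ^ 3 / 4) := by
        have hc : IntegrableOn (fun _ : V => 2 * M) (closedBall x (R / 4)) :=
          continuous_const.continuousOn.integrableOn_compact (isCompact_closedBall _ _)
        rw [integral_const_mul, integral_add (omI x _) hc, setIntegral_const,
          vol_ball x (by positivity), smul_eq_mul]
        ring
      rw [h8] at h5
      have h9 : D / (R / 8) * (2 * r * ((∫ y in closedBall x (R / 4), om v y) + M * R ^ 3 / 4))
          = 16 * D * r / R * ((∫ y in closedBall x (R / 4), om v y) + M * R ^ 3 / 4) := by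
        field_simp
        ring
      rw [← h9]
      refine (neg_le_abs _).trans (h4.trans ?_)
      exact mul_le_mul_of_nonneg_left h5 (by positivity)
    have h4 : ∫ y, χ y * (1 + s y ^ 2)⁻¹ * (e ⬝ᵥ w y + 2 * M)
        ≤ 48 * D * r / R * ((∫ y in closedBall x (R / 4), om v y) + M * R ^ 3 / 4) := by
      rw [hid, Fin.sum_univ_three]
      have a0 := h3 0
      have a1 := h3 1
      have a2 := h3 2
      have e1 : 48 * D * r / R * ((∫ y in closedBall x (R / 4), om v y) + M * R ^ 3 / 4)
          = 3 * (16 * D * r / R * ((∫ y in closedBall x (R / 4), om v y) + M * R ^ 3 / 4)) := by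
        ring
      rw [e1]
      linarith
    exact h1.trans (h2.trans h4)
  -- combination
  set I4 := ∫ y in closedBall x (R / 4), om v y with hI4
  set I := ∫ y in closedBall x r, om v y with hI
  have hS : √(E / R) = √R * √E / R := by
    rw [Real.sqrt_div hE0]
    have h1 : √R * √R = R := Real.mul_self_sqrt hR.le
    have h2 : 0 < √R := Real.sqrt_pos.2 hR
    field_simp
    rw [pow_two, h1]
  set S := √R * √E with hSdef
  have hS0 : 0 ≤ S := by positivity
  have h1 : I4 + M * R ^ 3 / 4 ≤ (24 * D + 3) * (S + M * R ^ 3) / κ := by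
    rw [le_div_iff₀ hκ]
    have hMR : 0 ≤ M * R ^ 3 := by positivity
    have h2 : M * R ^ 3 / 4 * κ ≤ M * R ^ 3 / 4 := mul_le_of_le_one_right (by positivity) hκ1
    nlinarith [step1, mul_nonneg hD.le hMR, mul_nonneg hD.le hS0]
  have h2 : κ / 10 * I ≤ 48 * D * r / R * ((24 * D + 3) * (S + M * R ^ 3) / κ) :=
    step2.trans (mul_le_mul_of_nonneg_left h1 (by positivity))
  have h3 : I ≤ 480 * D * (24 * D + 3) / κ ^ 2 * (S / R + M * R ^ 2) * r := by
    have h4 : I = 10 / κ * (κ / 10 * I) := by field_simp
    have h5 : 480 * D * (24 * D + 3) / κ ^ 2 * (S / R + M * R ^ 2) * r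
        = 10 / κ * (48 * D * r / R * ((24 * D + 3) * (S + M * R ^ 3) / κ)) := by
      field_simp
      ring
    rw [h4, h5]
    exact mul_le_mul_of_nonneg_left h2 (by positivity)
  rw [hS]
  refine h3.trans (mul_le_mul_of_nonneg_right (mul_le_mul_of_nonneg_right ?_ (by positivity)) hr.le)
  exact div_le_div_of_nonneg_right (by linarith) hκ2.le

end Pool.Agent.Q85.CC
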