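import Pool.Agent.Q85.CC.Dbl

/-!
Project CC, part (C): general viscosity, and the form for pairs of points.
-/

set_option autoImplicit false

open MeasureTheory Set Metric Filter Topology
open scoped ContDiff
open H459R3.NS Pool.Agent.W268.NS Pool.Agent.Q67.VD
open Pool.Agent.Q199.VD hiding om_nonneg

namespace Pool.Agent.Q85.CC

/-- The double cone condition excludes blow-up. -/
theorem dbl_nu {ν T : ℝ} {u : ℝ → V → V} {p : ℝ → V → ℝ} (hν : 0 < ν)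
    (h : IsSol ν T u p) {T₀ κ R : ℝ} (hT₀ : T₀ < T) (hκ : 0 < κ) (hR : 0 < R)
    (hc : ∀ t ∈ Ico 0 T, T₀ < t → ∀ x, ∃ e : V, e ⬝ᵥ e = 1 ∧ ∀ y, ‖y - x‖ ≤ R →
      κ * om (u t) y ≤ |e ⬝ᵥ vort (u t) y|) :
    ∃ B, ∀ t ∈ Ico 0 T, ∀ x, ‖u t x‖ ≤ B := by
  by_cases hT : 0 < T
  · have hsc := Pool.Agent.W930.MD.t_SCALE ν T u p hν hT h
    have hmem : ∀ t ∈ Ioo (ν * max T₀ 0) (ν * T), t / ν ∈ Ico 0 T ∧ T₀ < t / ν := by
      intro t ht
      have h1 : max T₀ 0 < t / ν := by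
        rw [lt_div_iff₀ hν, mul_comm]
        exact ht.1
      have h2 : t / ν < T := by
        rw [div_lt_iff₀ hν, mul_comm]
        exact ht.2
      exact ⟨⟨(le_max_right _ _).trans h1.le, h2⟩, (le_max_left _ _).trans_lt h1⟩
    obtain ⟨B, hB⟩ := stmDbl (ν * T) _ _ (by positivity) hsc (ν * max T₀ 0) κ R
      (mul_nonneg hν.le (le_max_right _ _))
      (mul_lt_mul_of_pos_left (max_lt hT₀ hT) hν) hκ hR (by
        intro t ht x
        obtain ⟨hI, hT0t⟩ := hmem t ht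
        obtain ⟨e, he, hce⟩ := hc _ hI hT0t x
        have hv : ∀ i, SP (fun y => u (t / ν) y i) := fun i => h.sp hI i
        refine ⟨e, he, fun y hy => ?_⟩
        rw [om_smul (inv_nonneg.2 hν.le) hv, vort_smul ν⁻¹ hv, dotProduct_smul, smul_eq_mul,
          abs_mul, abs_of_pos (inv_pos.2 hν)]
        calc κ * (ν⁻¹ * om (u (t / ν)) y) = ν⁻¹ * (κ * om (u (t / ν)) y) := by ring
          _ ≤ _ := mul_le_mul_of_nonneg_left (hce y hy) (inv_nonneg.2 hν.le))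
    refine ⟨ν * B, fun t ht x => ?_⟩
    have h1 := hB (ν * t) ⟨mul_nonneg hν.le ht.1, mul_lt_mul_of_pos_left ht.2 hν⟩ x
    have h2 : ν * t / ν = t := by field_simp
    rw [h2, norm_smul, Real.norm_eq_abs, abs_of_pos (inv_pos.2 hν)] at h1
    calc ‖u t x‖ = ν * (ν⁻¹ * ‖u t x‖) := by field_simp
      _ ≤ ν * B := mul_le_mul_of_nonneg_left h1 hν.le
  · exact ⟨0, fun t ht => absurd (ht.1.trans_lt ht.2) hT⟩

/-- If no two vorticities at small distances are nearly orthogonal, there is no blow-up. -/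
theorem pair_nu {ν T : ℝ} {u : ℝ → V → V} {p : ℝ → V → ℝ} (hν : 0 < ν)
    (h : IsSol ν T u p) {T₀ κ R : ℝ} (hT₀ : T₀ < T) (hκ : 0 < κ) (hR : 0 < R)
    (hc : ∀ t ∈ Ico 0 T, T₀ < t → ∀ x y, ‖x - y‖ ≤ R →
      κ * (om (u t) x * om (u t) y) ≤ |vort (u t) x ⬝ᵥ vort (u t) y|) :
    ∃ B, ∀ t ∈ Ico 0 T, ∀ x, ‖u t x‖ ≤ B := by
  refine dbl_nu hν h (T₀ := T₀) (κ := κ) (R := R / 2) hT₀ hκ (by positivity) ?_
  intro t ht hTt x
  by_cases hy : ∃ y0, ‖y0 - x‖ ≤ R / 2 ∧ 0 < om (u t) y0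
  · obtain ⟨y0, hy0, h0⟩ := hy
    refine ⟨(om (u t) y0)⁻¹ • vort (u t) y0, ?_, fun y hyR => ?_⟩
    · rw [smul_dotProduct, dotProduct_smul, ← om_sq, smul_eq_mul, smul_eq_mul]
      field_simp
    · have h1 : ‖y0 - y‖ ≤ R := by
        have e1 : y0 - y = (y0 - x) - (y - x) := by abel
        rw [e1]
        exact (norm_sub_le _ _).trans (by linarith)
      have h2 := hc t ht hTt y0 y h1
      rw [smul_dotProduct, smul_eq_mul, abs_mul, abs_of_pos (inv_pos.2 h0)]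
      have h3 : κ * om (u t) y = (om (u t) y0)⁻¹ * (κ * (om (u t) y0 * om (u t) y)) := by
        field_simp
      rw [h3]
      exact mul_le_mul_of_nonneg_left h2 (inv_nonneg.2 h0.le)
  · push Not at hy
    refine ⟨Pi.single 0 1, by simp, fun y hyR => ?_⟩
    have h1 : om (u t) y = 0 := le_antisymm (hy y hyR) (om_nonneg _ _)
    rw [h1, mul_zero]
    exact abs_nonneg _

end Pool.Agent.Q85.CC
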