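import Pool.Agent.Q85.CC.Half

/-!
Project CC: directions which make mutual angles less than the angle `arccos (-1/3)` of the regular
tetrahedron lie in an open half-space.
-/

set_option autoImplicit false

open MeasureTheory Set Metric Filter Topology
open H459R3.NS Pool.Agent.W268.NS Pool.Agent.Q67.VD
open Pool.Agent.Q199.VD

namespace Pool.Agent.Q85.CC

section
variable {E : Type*} [NormedAddCommGroup E] [InnerProductSpace ℝ E] [FiniteDimensional ℝ E]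

lemma low_norm (hd : Module.finrank ℝ E = 3) {ε : ℝ} (hε1 : ε ≤ 1) {D : Set E}
    (h1 : ∀ a ∈ D, inner ℝ a a = 1) (h2 : ∀ a ∈ D, ∀ b ∈ D, ε - 1 / 3 ≤ inner ℝ a b) {p : E}
    (hp : p ∈ convexHull ℝ D) : 3 * ε / 4 ≤ ‖p‖ ^ 2 := by
  rw [convexHull_eq_union] at hp
  simp only [mem_iUnion] at hp
  obtain ⟨s, hs, hind, hp⟩ := hp
  have hcard : s.card ≤ 4 := by
    have h3 := hind.card_le_finrank_succ
    have h4 := Submodule.finrank_le (vectorSpan ℝ (range ((↑) : s → E)))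
    rw [Fintype.card_coe] at h3
    omega
  rw [Finset.mem_convexHull'] at hp
  obtain ⟨w, hw0, hw1, hwp⟩ := hp
  have e1 : ‖p‖ ^ 2 = ∑ a ∈ s, ∑ b ∈ s, w a * w b * inner ℝ a b := by
    rw [← real_inner_self_eq_norm_sq, ← hwp, sum_inner]
    refine Finset.sum_congr rfl fun a _ => ?_
    rw [inner_sum]
    refine Finset.sum_congr rfl fun b _ => ?_
    rw [real_inner_smul_left, real_inner_smul_right]
    ring
  have e2 : ∑ a ∈ s, ∑ b ∈ s, w a * w b * (inner ℝ a b - (ε - 1 / 3)) = ‖p‖ ^ 2 - (ε - 1 / 3) := by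
    have e3 : ∑ a ∈ s, ∑ b ∈ s, w a * w b * (ε - 1 / 3) = ε - 1 / 3 := by
      have e4 : ∑ a ∈ s, ∑ b ∈ s, w a * w b = 1 := by
        rw [← Finset.sum_mul_sum, hw1, one_mul]
      simp_rw [← Finset.sum_mul]
      rw [e4, one_mul]
    rw [e1]
    simp_rw [mul_sub, Finset.sum_sub_distrib]
    have e5 : ∑ a ∈ s, ∑ b ∈ s, w a * w b * ε - ∑ a ∈ s, ∑ b ∈ s, w a * w b * (1 / 3)
        = ε - 1 / 3 := by
      rw [← e3]
      simp_rw [mul_sub, Finset.sum_sub_distrib]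
    linarith
  have e6 : ∑ a ∈ s, w a ^ 2 * (4 / 3 - ε)
      ≤ ∑ a ∈ s, ∑ b ∈ s, w a * w b * (inner ℝ a b - (ε - 1 / 3)) := by
    refine Finset.sum_le_sum fun a ha => ?_
    have h3 : w a ^ 2 * (4 / 3 - ε) = w a * w a * (inner ℝ a a - (ε - 1 / 3)) := by
      rw [h1 a (hs ha)]
      ring
    rw [h3]
    refine Finset.single_le_sum (f := fun b => w a * w b * (inner ℝ a b - (ε - 1 / 3)))
      (fun b hb => ?_) ha
    exact mul_nonneg (mul_nonneg (hw0 a ha) (hw0 b hb))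
      (sub_nonneg.2 (h2 a (hs ha) b (hs hb)))
  rw [← Finset.sum_mul, e2] at e6
  have h4 : (1 : ℝ) ≤ 4 * ∑ a ∈ s, w a ^ 2 := by
    have h5 := sq_sum_le_card_mul_sum_sq (s := s) (f := w)
    rw [hw1, one_pow] at h5
    have h6 : (s.card : ℝ) ≤ 4 := by exact_mod_cast hcard
    have h7 : (s.card : ℝ) * ∑ a ∈ s, w a ^ 2 ≤ 4 * ∑ a ∈ s, w a ^ 2 :=
      mul_le_mul_of_nonneg_right h6 (Finset.sum_nonneg fun a _ => sq_nonneg _)
    linarith
  have h8 : 0 ≤ 4 / 3 - ε := by linarith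
  nlinarith [mul_le_mul_of_nonneg_right h4 h8]

lemma exists_axis (hd : Module.finrank ℝ E = 3) {ε : ℝ} (hε : 0 < ε) (hε1 : ε ≤ 1) {D : Set E}
    (hne : D.Nonempty) (h1 : ∀ a ∈ D, inner ℝ a a = 1)
    (h2 : ∀ a ∈ D, ∀ b ∈ D, ε - 1 / 3 ≤ inner ℝ a b) :
    ∃ e : E, inner ℝ e e = 1 ∧ ∀ a ∈ D, ε / 2 ≤ inner ℝ e a := by
  obtain ⟨K, hK⟩ : ∃ K, K = closure (convexHull ℝ D) := ⟨_, rfl⟩
  have hDK : D ⊆ K := by
    rw [hK]
    exact (subset_convexHull ℝ D).trans subset_closure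
  have hKc : Convex ℝ K := by
    rw [hK]
    exact (convex_convexHull ℝ D).closure
  have hKcl : IsClosed K := by
    rw [hK]
    exact isClosed_closure
  have hlow : ∀ p ∈ K, 3 * ε / 4 ≤ ‖p‖ ^ 2 := by
    intro p hp
    rw [hK] at hp
    have hcl : IsClosed {p : E | 3 * ε / 4 ≤ ‖p‖ ^ 2} :=
      isClosed_le continuous_const (continuous_norm.pow 2)
    exact closure_minimal (fun q hq => low_norm hd hε1 h1 h2 hq) hcl hp
  obtain ⟨m, hm, hmin⟩ := exists_norm_eq_iInf_of_complete_convex (hne.mono hDK)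
    hKcl.isComplete hKc (0 : E)
  rw [norm_eq_iInf_iff_real_inner_le_zero hKc hm] at hmin
  have hm2 := hlow m hm
  have hm0 : 0 < ‖m‖ := by
    by_contra hcon
    have h3 : ‖m‖ = 0 := le_antisymm (not_lt.1 hcon) (norm_nonneg _)
    rw [h3] at hm2
    norm_num at hm2
    linarith
  have hlm : ε / 2 ≤ ‖m‖ := by
    have h3 : (ε / 2) ^ 2 ≤ ‖m‖ ^ 2 := by nlinarith
    exact (sq_le_sq₀ (by positivity) hm0.le).1 h3
  refine ⟨‖m‖⁻¹ • m, ?_, fun a ha => ?_⟩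
  · rw [real_inner_smul_left, real_inner_smul_right, real_inner_self_eq_norm_sq]
    field_simp
  · have h3 := hmin a (hDK ha)
    rw [zero_sub, inner_neg_left, inner_sub_right, real_inner_self_eq_norm_sq] at h3
    have h4 : ‖m‖ ^ 2 ≤ inner ℝ m a := by linarith
    rw [real_inner_smul_left]
    calc ε / 2 ≤ ‖m‖ := hlm
      _ = ‖m‖⁻¹ * ‖m‖ ^ 2 := by field_simp
      _ ≤ ‖m‖⁻¹ * inner ℝ m a := mul_le_mul_of_nonneg_left h4 (inv_nonneg.2 hm0.le)

end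

/-- Directions which make mutual angles less than `arccos (-1/3)` lie in an open half-space. -/
lemma tetra {ε : ℝ} (hε : 0 < ε) (hε1 : ε ≤ 1) {D : Set V} (h1 : ∀ a ∈ D, a ⬝ᵥ a = 1)
    (h2 : ∀ a ∈ D, ∀ b ∈ D, ε - 1 / 3 ≤ a ⬝ᵥ b) :
    ∃ e : V, e ⬝ᵥ e = 1 ∧ ∀ a ∈ D, ε / 2 ≤ e ⬝ᵥ a := by
  by_cases hne : D.Nonempty
  · have hin : ∀ a b : EuclideanSpace ℝ (Fin 3), inner ℝ a b = a.ofLp ⬝ᵥ b.ofLp := by
      intro a b
      rw [EuclideanSpace.inner_eq_star_dotProduct, dotProduct_comm]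
      rfl
    have hd : Module.finrank ℝ (EuclideanSpace ℝ (Fin 3)) = 3 := by simp
    obtain ⟨e, he1, he2⟩ := exists_axis (E := EuclideanSpace ℝ (Fin 3)) hd hε hε1
      (D := {a | a.ofLp ∈ D}) (by
        obtain ⟨a, ha⟩ := hne
        exact ⟨WithLp.toLp 2 a, ha⟩)
      (fun a ha => by rw [hin]; exact h1 _ ha)
      (fun a ha b hb => by rw [hin]; exact h2 _ ha _ hb)
    refine ⟨e.ofLp, by rw [← hin]; exact he1, fun a ha => ?_⟩
    have := he2 (WithLp.toLp 2 a) ha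
    rwa [hin] at this
  · rw [not_nonempty_iff_eq_empty] at hne
    refine ⟨Pi.single 0 1, by simp, fun a ha => ?_⟩
    rw [hne] at ha
    exact absurd ha (notMem_empty a)

end Pool.Agent.Q85.CC
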