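import Pool.Agent.Q85.CC.Defs

/-!
Project CC: the volume of a cylinder.
-/

set_option autoImplicit false

open MeasureTheory Set Metric
open H459R3.NS Pool.Agent.W268.NS Pool.Agent.Q67.VD

namespace Pool.Agent.Q85.CC

lemma det_upd (e : V) (i : Fin 3) : ((1 : Matrix (Fin 3) (Fin 3) ℝ).updateRow i e).det = e i := by
  have h1 : (Matrix.cramer (1 : Matrix (Fin 3) (Fin 3) ℝ)) e i = e i := by
    rw [Matrix.cramer_one]
    rfl
  rw [Matrix.cramer_apply] at h1
  rw [← Matrix.det_transpose, ← Matrix.updateCol_transpose, Matrix.transpose_one]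
  exact h1

lemma mulVec_upd (e y : V) (i j : Fin 3) :
    (((1 : Matrix (Fin 3) (Fin 3) ℝ).updateRow i e).mulVec y) j
      = if j = i then e ⬝ᵥ y else y j := by
  show ((1 : Matrix (Fin 3) (Fin 3) ℝ).updateRow i e) j ⬝ᵥ y = _
  by_cases h : j = i
  · subst h
    rw [Matrix.updateRow_self, if_pos rfl]
  · rw [if_neg h, Matrix.updateRow_ne h]
    exact congrFun (Matrix.one_mulVec y) j

theorem vol_disc (e x : V) (s w ρ : ℝ) (he : e ⬝ᵥ e = 1) (hw : 0 ≤ w) (hwρ : w ≤ ρ) :
    volume (Disc e x s w ρ) ≤ ENNReal.ofReal (64 * ρ ^ 2 * w) := by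
  have hρ : 0 ≤ ρ := hw.trans hwρ
  -- a large coordinate
  obtain ⟨i, hi⟩ : ∃ i, 1 / 3 ≤ e i ^ 2 := by
    by_contra hcon
    push Not at hcon
    have h1 : e ⬝ᵥ e = e 0 ^ 2 + e 1 ^ 2 + e 2 ^ 2 := by
      simp only [dotProduct, Fin.sum_univ_three]
      ring
    linarith [hcon 0, hcon 1, hcon 2]
  have hei : 1 / 2 ≤ |e i| := by
    have h1 : (1 / 2 : ℝ) ^ 2 ≤ |e i| ^ 2 := by
      rw [sq_abs]
      linarith
    exact (sq_le_sq₀ (by norm_num) (abs_nonneg _)).1 h1
  obtain ⟨L, hL⟩ : ∃ L : V →ₗ[ℝ] V, L = Matrix.toLin'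
    ((1 : Matrix (Fin 3) (Fin 3) ℝ).updateRow i e) := ⟨_, rfl⟩
  have hdet : LinearMap.det L = e i := by
    rw [hL, LinearMap.det_toLin', det_upd]
  have himg := Measure.addHaar_image_linearMap (volume : Measure V) L (Disc e x s w ρ)
  rw [hdet] at himg
  have hLy : ∀ y j, L y j = if j = i then e ⬝ᵥ y else y j := by
    intro y j
    rw [hL, Matrix.toLin'_apply]
    exact mulVec_upd e y i j
  obtain ⟨a, ha⟩ : ∃ a : V, a = fun j => if j = i then e ⬝ᵥ x + s - w else x j + s * e j - 2 * ρ :=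
    ⟨_, rfl⟩
  obtain ⟨b, hb⟩ : ∃ b : V, b = fun j => if j = i then e ⬝ᵥ x + s + w else x j + s * e j + 2 * ρ :=
    ⟨_, rfl⟩
  have hsub : L '' Disc e x s w ρ ⊆ Icc a b := by
    rintro _ ⟨y, ⟨hy1, hy2⟩, rfl⟩
    have h1 := abs_le.1 hy1
    have h2 : hgt e x y = e ⬝ᵥ y - e ⬝ᵥ x := by
      unfold hgt
      rw [dotProduct_sub]
    have h3 : ∀ j, (y j - x j - s * e j) ^ 2 ≤ (2 * ρ) ^ 2 := by
      intro j
      have e1 : ∑ j, (y j - x j - s * e j) ^ 2 = pr2 e x y + (hgt e x y - s) ^ 2 := by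
        have e2 : ∑ j, (y j - x j - s * e j) ^ 2
            = (y - x) ⬝ᵥ (y - x) - 2 * s * (e ⬝ᵥ (y - x)) + s ^ 2 * (e ⬝ᵥ e) := by
          simp only [dotProduct, Fin.sum_univ_three, Pi.sub_apply]
          ring
        rw [e2, he]
        unfold pr2 hgt
        ring
      have e3 : (y j - x j - s * e j) ^ 2 ≤ ∑ j, (y j - x j - s * e j) ^ 2 :=
        Finset.single_le_sum (f := fun j => (y j - x j - s * e j) ^ 2)
          (fun _ _ => sq_nonneg _) (Finset.mem_univ j)
      have e4 : (hgt e x y - s) ^ 2 ≤ w ^ 2 := by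
        rw [← sq_abs]
        exact pow_le_pow_left₀ (abs_nonneg _) hy1 2
      have e5 : w ^ 2 ≤ ρ ^ 2 := pow_le_pow_left₀ hw hwρ 2
      nlinarith
    have h4 : ∀ j, |y j - x j - s * e j| ≤ 2 * ρ := fun j =>
      abs_le_of_sq_le_sq (h3 j) (by linarith)
    constructor
    · intro j
      rw [hLy, ha]
      by_cases hj : j = i
      · simp only [hj, if_true]
        linarith [h1.1]
      · simp only [hj, if_false]
        linarith [(abs_le.1 (h4 j)).1]
    · intro j
      rw [hLy, hb]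
      by_cases hj : j = i
      · simp only [hj, if_true]
        linarith [h1.2]
      · simp only [hj, if_false]
        linarith [(abs_le.1 (h4 j)).2]
  have hvol : volume (Icc a b) ≤ ENNReal.ofReal (32 * ρ ^ 2 * w) := by
    rw [Real.volume_Icc_pi, ← ENNReal.ofReal_prod_of_nonneg]
    · apply ENNReal.ofReal_le_ofReal
      apply le_of_eq
      have h1 : ∀ j, b j - a j = if j = i then 2 * w else 4 * ρ := by
        intro j
        rw [ha, hb]
        by_cases hj : j = i
        · simp only [hj, if_true]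
          ring
        · simp only [hj, if_false]
          ring
      simp_rw [h1]
      fin_cases i
      · rw [Fin.prod_univ_three]
        simp
        ring
      · rw [Fin.prod_univ_three]
        simp
        ring
      · rw [Fin.prod_univ_three]
        simp
        ring
    · intro j _
      rw [ha, hb]
      by_cases hj : j = i
      · simp only [hj, if_true]
        linarith
      · simp only [hj, if_false]
        linarith
  have h5 : ENNReal.ofReal |e i| * volume (Disc e x s w ρ) ≤ ENNReal.ofReal (32 * ρ ^ 2 * w) := by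
    rw [← himg]
    exact (measure_mono hsub).trans hvol
  have h6 : ENNReal.ofReal (1 / 2) * volume (Disc e x s w ρ)
      ≤ ENNReal.ofReal (32 * ρ ^ 2 * w) :=
    (mul_le_mul_left (ENNReal.ofReal_le_ofReal hei) _).trans h5
  have h7 : volume (Disc e x s w ρ)
      = ENNReal.ofReal 2 * (ENNReal.ofReal (1 / 2) * volume (Disc e x s w ρ)) := by
    rw [← mul_assoc, ← ENNReal.ofReal_mul (by norm_num)]
    norm_num
  rw [h7]
  calc ENNReal.ofReal 2 * (ENNReal.ofReal (1 / 2) * volume (Disc e x s w ρ))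
      ≤ ENNReal.ofReal 2 * ENNReal.ofReal (32 * ρ ^ 2 * w) := mul_le_mul_right h6 _
    _ = ENNReal.ofReal (64 * ρ ^ 2 * w) := by
      rw [← ENNReal.ofReal_mul (by norm_num)]
      congr 1
      ring

end Pool.Agent.Q85.CC
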